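import Pool.Agent.H83.G.Targets3

/-! RDA: refined decoupling with planks, from families narrow in `a` (board g_modules,
MP_ee74d2_an, Theorem G). -/

set_option autoImplicit false

open MeasureTheory Set SchwartzMap FourierTransform
open scoped ENNReal NNReal RealInnerProductSpace

namespace Pool.Agent.H84.G.RDA

open Pool.Agent.H83.G

private noncomputable def th (x : ℝ) : ℝ := Real.smoothTransition (x + 1) - Real.smoothTransition x

private theorem th_supp (x : ℝ) (h : th x ≠ 0) : |x| ≤ 1 := by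
  by_contra hx
  rw [not_le] at hx
  apply h
  unfold th
  rcases lt_abs.mp hx with h1 | h1
  · rw [Real.smoothTransition.one_of_one_le (by linarith : (1 : ℝ) ≤ x + 1),
      Real.smoothTransition.one_of_one_le (by linarith : (1 : ℝ) ≤ x), sub_self]
  · rw [Real.smoothTransition.zero_of_nonpos (by linarith : x + 1 ≤ 0),
      Real.smoothTransition.zero_of_nonpos (by linarith : x ≤ 0), sub_self]

private theorem th_smooth : ContDiff ℝ (⊤ : ℕ∞) th := by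
  unfold th
  have h1 : ContDiff ℝ (⊤ : ℕ∞) Real.smoothTransition := Real.smoothTransition.contDiff
  exact (h1.comp (by fun_prop)).sub h1

private theorem th_sum (n : ℕ) (x : ℝ) (h0 : 0 ≤ x) (hn : x ≤ n) :
    ∑ i ∈ Finset.range (n + 1), th (x - i) = 1 := by
  have h1 : ∀ i ∈ Finset.range (n + 1), th (x - i) =
      (fun i : ℕ => Real.smoothTransition (x + 1 - i)) i -
      (fun i : ℕ => Real.smoothTransition (x + 1 - i)) (i + 1) := by
    intro i _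
    unfold th
    simp only
    congr 2
    · ring
    · push_cast; ring
  rw [Finset.sum_congr rfl h1, Finset.sum_range_sub']
  rw [Real.smoothTransition.one_of_one_le (by push_cast; linarith),
    Real.smoothTransition.zero_of_nonpos (by push_cast; linarith), sub_zero]

private theorem kap : ∃ κ : 𝓢(ℝ, ℂ), ∀ x : ℝ, ∫ q, κ q * e (-(q * x)) = (th x : ℂ) := by
  have hs : ContDiff ℝ (⊤ : ℕ∞) (fun x => (th x : ℂ)) := Complex.ofRealCLM.contDiff.comp th_smooth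
  have hc : HasCompactSupport (fun x => (th x : ℂ)) := by
    refine HasCompactSupport.of_support_subset_isCompact (K := Icc (-1) 1) isCompact_Icc ?_
    intro x hx
    have h1 : th x ≠ 0 := fun h => hx (by simp [h])
    exact abs_le.mp (th_supp x h1)
  set F : 𝓢(ℝ, ℂ) := hc.toSchwartzMap hs with hF
  refine ⟨𝓕⁻ F, fun x => ?_⟩
  have h1 : (𝓕 (𝓕⁻ F) : 𝓢(ℝ, ℂ)) = F := FourierTransform.fourier_fourierInv_eq F
  have h2 : (𝓕 (𝓕⁻ F) : 𝓢(ℝ, ℂ)) x = (th x : ℂ) := by rw [h1]; rfl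
  rw [SchwartzMap.fourier_coe, Real.fourier_real_eq_integral_exp_smul] at h2
  rw [← h2]
  refine integral_congr_ae (Filter.Eventually.of_forall fun q => ?_)
  simp only [smul_eq_mul]
  rw [mul_comm]
  congr 1
  unfold e
  congr 1
  push_cast
  ring

private theorem norm_e (x : ℝ) : ‖e x‖ = 1 := by
  unfold e
  rw [Complex.norm_exp_ofReal_mul_I]

private theorem e_add (x y : ℝ) : e (x + y) = e x * e y := by
  unfold e
  rw [← Complex.exp_add]
  congr 1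
  push_cast
  ring

private theorem continuous_e : Continuous e := by
  unfold e
  fun_prop

private theorem continuous_ph {m : ℕ} : Continuous (fun p : Z m × Z m => ph p.1 p.2) := by
  unfold ph
  fun_prop

private theorem mulA {m : ℕ} (κ : 𝓢(ℝ, ℂ)) (hκ : ∀ x : ℝ, ∫ q, κ q * e (-(q * x)) = (th x : ℂ))
    (G : Z m → ℂ) (hG : TC G) (τ y : ℝ) (z : Z m) :
    TF (fun ζ => (th (τ * ζ.1 - y) : ℂ) * G ζ) z
      = ∫ q, κ q * e (q * y) * TF G (z - ((τ * q, 0, 0) : Z m)) := by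
  have hGi : Integrable G := hG.1.continuous.integrable_of_hasCompactSupport hG.2
  have hint : Integrable (fun p : ℝ × Z m => κ p.1 * G p.2) (volume.prod volume) :=
    κ.integrable.mul_prod hGi
  have hcont : Continuous (fun p : ℝ × Z m =>
      κ p.1 * e (p.1 * y) * (e (ph (z - ((τ * p.1, 0, 0) : Z m)) p.2) * G p.2)) := by
    have h1 : Continuous (fun p : ℝ × Z m => (z - ((τ * p.1, 0, 0) : Z m), p.2)) := by fun_prop
    have h2 := continuous_e.comp (continuous_ph.comp h1)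
    have h3 : Continuous (fun p : ℝ × Z m => e (p.1 * y)) := continuous_e.comp (by fun_prop)
    have h4 : Continuous (fun p : ℝ × Z m => κ p.1) := κ.continuous.comp continuous_fst
    have h5 : Continuous (fun p : ℝ × Z m => G p.2) := hG.1.continuous.comp continuous_snd
    exact (h4.mul h3).mul (h2.mul h5)
  have hint2 : Integrable (fun p : ℝ × Z m =>
      κ p.1 * e (p.1 * y) * (e (ph (z - ((τ * p.1, 0, 0) : Z m)) p.2) * G p.2))
      (volume.prod volume) := by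
    refine hint.mono hcont.aestronglyMeasurable (Filter.Eventually.of_forall fun p => ?_)
    simp only [norm_mul, norm_e, mul_one, one_mul, le_refl]
  unfold TF
  simp_rw [← integral_const_mul]
  rw [integral_integral_swap hint2]
  refine integral_congr_ae (Filter.Eventually.of_forall fun ζ => ?_)
  simp only
  have h1 : ∀ q : ℝ, κ q * e (q * y) * (e (ph (z - ((τ * q, 0, 0) : Z m)) ζ) * G ζ)
      = (κ q * e (-(q * (τ * ζ.1 - y)))) * (e (ph z ζ) * G ζ) := by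
    intro q
    have h2 : ph (z - ((τ * q, 0, 0) : Z m)) ζ = ph z ζ + -(τ * q * ζ.1) := by
      unfold ph
      simp only [Prod.fst_sub, Prod.snd_sub, sub_zero]
      ring
    rw [h2, e_add, show -(q * (τ * ζ.1 - y)) = q * y + -(τ * q * ζ.1) by ring, e_add]
    ring
  simp_rw [h1]
  rw [integral_mul_const, hκ]
  ring

private theorem jen {α : Type} [MeasurableSpace α] (μ : Measure α) (P : ℝ) (hP : 2 ≤ P)
    (k F : α → ℝ≥0∞) (hk : Measurable k) (hF : Measurable F) :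
    (∫⁻ q, k q * F q ∂μ) ^ P ≤ (∫⁻ q, k q ∂μ) ^ (P - 1) * ∫⁻ q, k q * F q ^ P ∂μ := by
  have hP0 : 0 < P := by linarith
  have hP1 : 0 < P - 1 := by linarith
  set Q : ℝ := P / (P - 1) with hQ
  have hQ0 : 0 < Q := by positivity
  have hpq : Q.HolderConjugate P := by
    rw [Real.holderConjugate_iff]
    constructor
    · rw [hQ, lt_div_iff₀ hP1]; linarith
    · rw [hQ]; field_simp; ring
  have h1 := ENNReal.lintegral_mul_le_Lp_mul_Lq μ hpq
    (f := fun q => k q ^ (1 / Q)) (g := fun q => k q ^ (1 / P) * F q)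
    (hk.pow_const _).aemeasurable ((hk.pow_const _).mul hF).aemeasurable
  have e1 : ∀ q, ((fun q => k q ^ (1 / Q)) * (fun q => k q ^ (1 / P) * F q)) q = k q * F q := by
    intro q
    simp only [Pi.mul_apply]
    rw [← mul_assoc, ← ENNReal.rpow_add_of_nonneg _ _ (by positivity) (by positivity)]
    have : 1 / Q + 1 / P = 1 := by
      rw [hQ]; field_simp; ring
    rw [this, ENNReal.rpow_one]
  have e2 : ∀ q, (k q ^ (1 / Q)) ^ Q = k q := by
    intro q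
    rw [← ENNReal.rpow_mul, one_div, inv_mul_cancel₀ hQ0.ne', ENNReal.rpow_one]
  have e3 : ∀ q, (k q ^ (1 / P) * F q) ^ P = k q * F q ^ P := by
    intro q
    rw [ENNReal.mul_rpow_of_nonneg _ _ hP0.le, ← ENNReal.rpow_mul, one_div,
      inv_mul_cancel₀ hP0.ne', ENNReal.rpow_one]
  simp_rw [e1, e2, e3] at h1
  have h2 := ENNReal.rpow_le_rpow h1 hP0.le
  refine h2.trans (le_of_eq ?_)
  rw [ENNReal.mul_rpow_of_nonneg _ _ hP0.le, ← ENNReal.rpow_mul, ← ENNReal.rpow_mul,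
    show 1 / Q * P = P - 1 by rw [hQ]; field_simp, show 1 / P * P = 1 by field_simp,
    ENNReal.rpow_one]

private theorem pow_neg_le (a b c : ℝ≥0∞) (e : ℝ) (he : 0 ≤ e) (ha : a ≠ 0) (ha' : a ≠ ⊤)
    (hb : b ≠ 0) (hb' : b ≠ ⊤) (h : a ≤ c * b) : b ^ (-e) ≤ c ^ e * a ^ (-e) := by
  have h1 : a ^ e ≤ c ^ e * b ^ e := by
    rw [← ENNReal.mul_rpow_of_nonneg _ _ he]
    exact ENNReal.rpow_le_rpow h he
  have ha1 : a ^ e * a ^ (-e) = 1 := by
    rw [← ENNReal.rpow_add _ _ ha ha', add_neg_cancel, ENNReal.rpow_zero]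
  have hb1 : b ^ e * b ^ (-e) = 1 := by
    rw [← ENNReal.rpow_add _ _ hb hb', add_neg_cancel, ENNReal.rpow_zero]
  calc b ^ (-e) = b ^ (-e) * (a ^ e * a ^ (-e)) := by rw [ha1, mul_one]
    _ ≤ b ^ (-e) * ((c ^ e * b ^ e) * a ^ (-e)) :=
        mul_le_mul' le_rfl (mul_le_mul' h1 le_rfl)
    _ = (b ^ e * b ^ (-e)) * (c ^ e * a ^ (-e)) := by ring
    _ = _ := by rw [hb1, one_mul]

private theorem rpow_le_sq (b : ℝ≥0∞) (e : ℝ) (hb : 1 ≤ b) (he : e ≤ 2) : b ^ e ≤ b ^ 2 := by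
  rw [← ENNReal.rpow_two]
  exact ENNReal.rpow_le_rpow_of_exponent_le hb he

private theorem haarZ (m : ℕ) : (volume : Measure (Z m)).IsAddHaarMeasure := by
  have h : (volume : Measure (E m × ℝ)).IsAddHaarMeasure := by
    rw [Measure.volume_eq_prod]
    infer_instance
  rw [Measure.volume_eq_prod]
  infer_instance

/-- the weight integral of `κ` is finite -/
private theorem kw (κ : 𝓢(ℝ, ℂ)) (c : ℝ) (hc : 1 ≤ c) (N : ℕ) :
    ∃ C : ℝ≥0, ∫⁻ q, ‖κ q‖ₑ * ENNReal.ofReal ((c * (1 + 4 * |q|) ^ N) ^ 2) ≤ C := by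
  have hdec : ∃ B : ℝ, 0 ≤ B ∧ ∀ q : ℝ, ‖κ q‖ ≤ B * ((1 + |q|) ^ (2 * N + 2))⁻¹ := by
    have h1 := fun q : ℝ => SchwartzMap.one_add_le_sup_seminorm_apply (𝕜 := ℝ)
      (m := (2 * N + 2, 0)) (k := 2 * N + 2) (n := 0) le_rfl le_rfl κ q
    refine ⟨2 ^ (2 * N + 2) * ((Finset.Iic (2 * N + 2, 0)).sup fun m =>
      SchwartzMap.seminorm ℝ m.1 m.2) κ, le_trans (by positivity) (h1 0), fun q => ?_⟩
    have h2 := h1 q
    rw [norm_iteratedFDeriv_zero, Real.norm_eq_abs] at h2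
    rw [← div_eq_mul_inv, le_div_iff₀ (by positivity), mul_comm]
    exact h2
  obtain ⟨B, hB0, hB⟩ := hdec
  have hi : Integrable (fun q : ℝ => (1 + ‖q‖) ^ (-(2 : ℝ))) :=
    integrable_one_add_norm (by simp)
  have hfin : ∫⁻ q : ℝ, ENNReal.ofReal ((1 + ‖q‖) ^ (-(2 : ℝ))) < ⊤ := hi.lintegral_lt_top
  refine ⟨(ENNReal.ofReal (B * (c ^ 2 * 4 ^ (2 * N))) *
    ∫⁻ q : ℝ, ENNReal.ofReal ((1 + ‖q‖) ^ (-(2 : ℝ)))).toNNReal, ?_⟩
  rw [ENNReal.coe_toNNReal (ENNReal.mul_ne_top ENNReal.ofReal_ne_top hfin.ne),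
    ← lintegral_const_mul' _ _ ENNReal.ofReal_ne_top]
  refine lintegral_mono fun q => ?_
  rw [← ofReal_norm, ← ENNReal.ofReal_mul (norm_nonneg _),
    ← ENNReal.ofReal_mul (by positivity)]
  refine ENNReal.ofReal_le_ofReal ?_
  have hq : 0 ≤ |q| := abs_nonneg q
  have h3 : (c * (1 + 4 * |q|) ^ N) ^ 2 ≤ c ^ 2 * 4 ^ (2 * N) * (1 + |q|) ^ (2 * N) := by
    rw [mul_pow, ← pow_mul, mul_comm N 2, mul_assoc, ← mul_pow]
    refine mul_le_mul_of_nonneg_left (pow_le_pow_left₀ (by positivity) ?_ _) (by positivity)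
    linarith
  have h4 : (1 + |q|) ^ (-(2 : ℝ)) = ((1 + |q|) ^ 2)⁻¹ := by
    rw [Real.rpow_neg (by positivity), Real.rpow_two]
  rw [Real.norm_eq_abs, h4]
  calc ‖κ q‖ * (c * (1 + 4 * |q|) ^ N) ^ 2
      ≤ (B * ((1 + |q|) ^ (2 * N + 2))⁻¹) * (c ^ 2 * 4 ^ (2 * N) * (1 + |q|) ^ (2 * N)) :=
        mul_le_mul (hB q) h3 (by positivity) (by positivity)
    _ = _ := by
        rw [pow_add]
        field_simp

private theorem onek {m : ℕ} (N₁ : ℕ) (P c₂ : ℝ) (hP : 2 ≤ P) (he2 : P / 2 - 1 ≤ 2)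
    (hc1 : 1 ≤ c₂) : ∃ C : ℝ≥0, ∀ (ρ : ℝ) (η : E m) (s : ℝ) (G : Z m → ℂ) (M : Z m → ℝ≥0∞) (y : ℝ),
      1 ≤ ρ → TC G → Continuous (TF G) → Measurable M →
      (∀ z z', M z ≤ ENNReal.ofReal (c₂ * (1 + ‖ρ⁻¹ • Lo η s (z - z')‖) ^ N₁) * M z') →
      (∀ z, M z ≠ 0 ∧ M z ≠ ⊤) →
      ∫⁻ z, ‖TF (fun ζ => (th (4 * ρ * ζ.1 - y) : ℂ) * G ζ) z‖ₑ ^ P * M z ^ (1 - P / 2)
        ≤ C * ∫⁻ z, ‖TF G z‖ₑ ^ P * M z ^ (1 - P / 2) := by
  obtain ⟨κ, hκ⟩ := kap
  obtain ⟨Cw, hCw⟩ := kw κ c₂ hc1 N₁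
  have hκ1 : ∫⁻ q, ‖κ q‖ₑ ≠ ⊤ := by
    have := κ.integrable (μ := (volume : Measure ℝ))
    exact this.2.ne
  have hP0 : 0 < P := by linarith
  have he0 : 0 ≤ P / 2 - 1 := by linarith
  have hexp : 1 - P / 2 = -(P / 2 - 1) := by ring
  have hκP : (∫⁻ q, ‖κ q‖ₑ) ^ (P - 1) ≠ ⊤ := ENNReal.rpow_ne_top_of_nonneg (by linarith) hκ1
  refine ⟨((∫⁻ q, ‖κ q‖ₑ) ^ (P - 1) * Cw).toNNReal, ?_⟩
  intro ρ η s G M y hρ hG hGc hM hsl hM0
  have hρ0 : 0 < ρ := by linarith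
  have := haarZ m
  rw [ENNReal.coe_toNNReal (ENNReal.mul_ne_top hκP ENNReal.coe_ne_top)]
  set f : Z m → ℝ≥0∞ := fun z => ‖TF G z‖ₑ ^ P * M z ^ (1 - P / 2) with hf
  have hfm : Measurable f := (hGc.measurable.enorm.pow_const P).mul (hM.pow_const _)
  have hκm : Measurable (fun q : ℝ => ‖κ q‖ₑ) := κ.continuous.measurable.enorm
  set w : ℝ → ℝ≥0∞ := fun q => ENNReal.ofReal ((c₂ * (1 + 4 * |q|) ^ N₁) ^ 2) with hw
  have hwm : Measurable w := by
    rw [hw]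
    fun_prop
  -- pointwise
  have hpt : ∀ z, ‖TF (fun ζ => (th (4 * ρ * ζ.1 - y) : ℂ) * G ζ) z‖ₑ ^ P * M z ^ (1 - P / 2)
      ≤ (∫⁻ q, ‖κ q‖ₑ) ^ (P - 1) *
        ∫⁻ q, (‖κ q‖ₑ * w q) * f (z - ((4 * ρ * q, 0, 0) : Z m)) := by
    intro z
    rw [mulA κ hκ G hG (4 * ρ) y z]
    have hFm : Measurable (fun q : ℝ => ‖TF G (z - ((4 * ρ * q, 0, 0) : Z m))‖ₑ) := by
      have h1 : Continuous (fun q : ℝ => z - ((4 * ρ * q, 0, 0) : Z m)) := by fun_prop
      exact (hGc.comp h1).measurable.enorm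
    have h1 : ‖∫ q, κ q * e (q * y) * TF G (z - ((4 * ρ * q, 0, 0) : Z m))‖ₑ
        ≤ ∫⁻ q, ‖κ q‖ₑ * ‖TF G (z - ((4 * ρ * q, 0, 0) : Z m))‖ₑ := by
      refine (enorm_integral_le_lintegral_enorm _).trans (lintegral_mono fun q => ?_)
      rw [enorm_mul, enorm_mul]
      have : ‖e (q * y)‖ₑ = 1 := by rw [← ofReal_norm, norm_e, ENNReal.ofReal_one]
      rw [this, mul_one]
    have h2 := (ENNReal.rpow_le_rpow h1 hP0.le).trans
      (jen volume P hP (fun q => ‖κ q‖ₑ) _ hκm hFm)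
    refine (mul_le_mul' h2 le_rfl).trans ?_
    rw [mul_assoc]
    refine mul_le_mul' le_rfl ?_
    have hMt : M z ^ (1 - P / 2) ≠ ⊤ := by
      rw [hexp, ENNReal.rpow_neg]
      refine ENNReal.inv_ne_top.mpr fun h => ?_
      rcases ENNReal.rpow_eq_zero_iff.mp h with h2 | h2
      · exact (hM0 z).1 h2.1
      · exact (hM0 z).2 h2.1
    rw [← lintegral_mul_const' _ _ hMt]
    refine lintegral_mono fun q => ?_
    simp only [hf]
    have h3 : M z ^ (1 - P / 2) ≤ w q * M (z - ((4 * ρ * q, 0, 0) : Z m)) ^ (1 - P / 2) := by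
      rw [hexp]
      have h4 := hsl (z - ((4 * ρ * q, 0, 0) : Z m)) z
      have h5 : ‖ρ⁻¹ • Lo η s (z - ((4 * ρ * q, 0, 0) : Z m) - z)‖ = 4 * |q| := by
        have h6 : z - ((4 * ρ * q, 0, 0) : Z m) - z = ((-(4 * ρ * q), 0, 0) : Z m) := by
          ext <;> simp
        rw [h6]
        have h7 : Lo η s ((-(4 * ρ * q), 0, 0) : Z m) = ((-(4 * ρ * q), 0, 0) : Z m) := by
          unfold Lo
          simp
        rw [h7]
        simp only [Prod.smul_mk, smul_zero, Prod.norm_mk, norm_zero, smul_eq_mul, mul_zero, max_self]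
        rw [max_eq_left (norm_nonneg _), Real.norm_eq_abs, abs_mul, abs_neg, abs_mul, abs_mul,
          abs_of_pos (inv_pos.mpr hρ0), abs_of_pos hρ0, abs_of_pos (by norm_num : (0 : ℝ) < 4)]
        field_simp
      rw [h5] at h4
      refine (pow_neg_le _ _ _ _ he0 (hM0 _).1 (hM0 _).2 (hM0 _).1 (hM0 _).2 h4).trans ?_
      refine mul_le_mul' ?_ le_rfl
      rw [hw]
      simp only
      rw [ENNReal.ofReal_pow (by positivity)]
      refine rpow_le_sq _ _ ?_ he2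
      rw [← ENNReal.ofReal_one]
      refine ENNReal.ofReal_le_ofReal ?_
      refine one_le_mul_of_one_le_of_one_le hc1 (one_le_pow₀ ?_)
      have := abs_nonneg q
      linarith
    calc ‖κ q‖ₑ * ‖TF G (z - ((4 * ρ * q, 0, 0) : Z m))‖ₑ ^ P * M z ^ (1 - P / 2)
        ≤ ‖κ q‖ₑ * ‖TF G (z - ((4 * ρ * q, 0, 0) : Z m))‖ₑ ^ P *
          (w q * M (z - ((4 * ρ * q, 0, 0) : Z m)) ^ (1 - P / 2)) := mul_le_mul' le_rfl h3
      _ = _ := by ring
  have hjm : Measurable (fun p : Z m × ℝ =>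
      (‖κ p.2‖ₑ * w p.2) * f (p.1 - ((4 * ρ * p.2, 0, 0) : Z m))) := by
    have h1 : Continuous (fun p : Z m × ℝ => p.1 - ((4 * ρ * p.2, 0, 0) : Z m)) := by fun_prop
    exact ((hκm.comp measurable_snd).mul (hwm.comp measurable_snd)).mul (hfm.comp h1.measurable)
  calc ∫⁻ z, ‖TF (fun ζ => (th (4 * ρ * ζ.1 - y) : ℂ) * G ζ) z‖ₑ ^ P * M z ^ (1 - P / 2)
      ≤ ∫⁻ z, (∫⁻ q, ‖κ q‖ₑ) ^ (P - 1) *
        ∫⁻ q, (‖κ q‖ₑ * w q) * f (z - ((4 * ρ * q, 0, 0) : Z m)) := lintegral_mono hpt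
    _ = (∫⁻ q, ‖κ q‖ₑ) ^ (P - 1) * ∫⁻ z, ∫⁻ q, (‖κ q‖ₑ * w q) *
          f (z - ((4 * ρ * q, 0, 0) : Z m)) := lintegral_const_mul' _ _ hκP
    _ = (∫⁻ q, ‖κ q‖ₑ) ^ (P - 1) * ∫⁻ q, ∫⁻ z, (‖κ q‖ₑ * w q) *
          f (z - ((4 * ρ * q, 0, 0) : Z m)) := by
        rw [lintegral_lintegral_swap hjm.aemeasurable]
    _ = (∫⁻ q, ‖κ q‖ₑ) ^ (P - 1) * ∫⁻ q, (‖κ q‖ₑ * w q) * ∫⁻ z, f z := by
        congr 1
        refine lintegral_congr fun q => ?_
        rw [lintegral_const_mul]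
        · rw [lintegral_sub_right_eq_self f]
        · exact hfm.comp (measurable_id.sub measurable_const)
    _ = (∫⁻ q, ‖κ q‖ₑ) ^ (P - 1) * ((∫⁻ q, ‖κ q‖ₑ * w q) * ∫⁻ z, f z) := by
        have h1 : Measurable (fun q : ℝ => ‖κ q‖ₑ * w q) := hκm.mul hwm
        rw [lintegral_mul_const _ h1]
    _ ≤ (∫⁻ q, ‖κ q‖ₑ) ^ (P - 1) * (Cw * ∫⁻ z, f z) :=
        mul_le_mul' le_rfl (mul_le_mul' hCw le_rfl)
    _ = _ := by rw [mul_assoc]

private theorem TC_th {m : ℕ} (G : Z m → ℂ) (hG : TC G) (τ y : ℝ) :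
    TC (fun ζ : Z m => (th (τ * ζ.1 - y) : ℂ) * G ζ) := by
  refine ⟨?_, HasCompactSupport.mul_left (f := fun ζ : Z m => (th (τ * ζ.1 - y) : ℂ)) hG.2⟩
  have h1 : ContDiff ℝ (⊤ : ℕ∞) (fun ζ : Z m => τ * ζ.1 - y) := by fun_prop
  exact (Complex.ofRealCLM.contDiff.comp (th_smooth.comp h1)).mul hG.1

theorem pf_RDA (hRDT : T_RDT) (hSCH : T_SCH) (_hLOA : T_LOA) (_hWT2 : T_WT2) : T_RDA := by
  intro m N₁ J P D C₁ hm hP hmP hD hC₁ hJ
  have hJ0 : (0 : ℝ) < J := by exact_mod_cast hJ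
  obtain ⟨CT, hCT0, hCT⟩ := hRDT m N₁ J P (1 / (J : ℝ)) D C₁ hm hP hmP (by positivity) hD hC₁ hJ
  have hP0 : 0 < P := by linarith
  have hm1 : (1 : ℝ) ≤ m := by exact_mod_cast hm
  have he2 : P / 2 - 1 ≤ 2 := by nlinarith
  set c₂ : ℝ := max C₁ 1 with hc₂
  have hc1 : 1 ≤ c₂ := le_max_right _ _
  have hC₁c : C₁ ≤ c₂ := le_max_left _ _
  obtain ⟨Ck, hCk⟩ := onek (m := m) N₁ P c₂ hP he2 hc1
  refine ⟨26 ^ P * CT * (Ck + 1), by positivity, ?_⟩
  intro R I G M hR hI hTC hsupp hM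
  have hR0 : 0 < R := by linarith
  set ρ : ℝ := R ^ (1 / (J : ℝ)) with hρ
  have hρ1 : 1 ≤ ρ := Real.one_le_rpow hR (by positivity)
  have hρ0 : 0 < ρ := by linarith
  have hρinv : R ^ (-(1 / (J : ℝ))) = ρ⁻¹ := Real.rpow_neg hR0.le _
  set n : ℕ := ⌈24 * ρ⌉₊ with hn
  have hn1 : 24 * ρ ≤ n := Nat.le_ceil _
  have hn2 : ((n + 1 : ℕ) : ℝ) ≤ 26 * ρ := by
    have := Nat.ceil_lt_add_one (show 0 ≤ 24 * ρ by positivity)
    push_cast
    linarith
  set Gi : ℕ → (Fin m → ℤ) → Z m → ℂ := fun i k ζ => (th (4 * ρ * ζ.1 - i) : ℂ) * G k ζ with hGi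
  -- decomposition
  have hdec : ∀ k ∈ I, ∀ z, TF (G k) z = ∑ i ∈ Finset.range (n + 1), TF (Gi i k) z := by
    intro k hk z
    unfold TF
    rw [← integral_finsetSum]
    · refine integral_congr_ae (Filter.Eventually.of_forall fun ζ => ?_)
      simp only [hGi]
      by_cases hz : G k ζ = 0
      · simp [hz]
      · obtain ⟨h1, h2, -⟩ := hsupp k hk ζ hz
        have h3 := th_sum n (4 * ρ * ζ.1) (by positivity) (by nlinarith)
        have h4 : ∑ i ∈ Finset.range (n + 1), (th (4 * ρ * ζ.1 - i) : ℂ) = 1 := by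
          rw [← Complex.ofReal_sum, h3, Complex.ofReal_one]
        calc e (ph z ζ) * G k ζ = e (ph z ζ) * (1 * G k ζ) := by rw [one_mul]
          _ = _ := by rw [← h4, Finset.sum_mul, Finset.mul_sum]
    · intro i _
      have h1 := TC_th (G k) (hTC k hk) (4 * ρ) i
      have h2 : Continuous (fun ζ : Z m => e (ph z ζ) * Gi i k ζ) := by
        have h3 : Continuous (fun ζ : Z m => e (ph z ζ)) :=
          continuous_e.comp (continuous_ph.comp (by fun_prop : Continuous fun ζ : Z m => (z, ζ)))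
        exact h3.mul h1.1.continuous
      refine h2.integrable_of_hasCompactSupport ?_
      exact HasCompactSupport.mul_left (f := fun ζ : Z m => e (ph z ζ)) h1.2
  -- the sum over the slices
  have hslice : ∀ i : ℕ, ∫⁻ z, ‖∑ k ∈ I, TF (Gi i k) z‖ₑ ^ P * (∑ k ∈ I, M k z) ^ (1 - P / 2)
      ≤ ENNReal.ofReal (CT * ρ) * (Ck * ∑ k ∈ I, ∫⁻ z, ‖TF (G k) z‖ₑ ^ P * M k z ^ (1 - P / 2)) := by
    intro i
    by_cases hi : 1 / 4 ≤ (i : ℝ) / (4 * ρ) ∧ (i : ℝ) / (4 * ρ) ≤ 8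
    · have h1 := hCT R ((i : ℝ) / (4 * ρ)) I (Gi i) M hR hi.1 hi.2 hI
        (fun k hk => TC_th (G k) (hTC k hk) (4 * ρ) i) ?_ hM
      · refine h1.trans (mul_le_mul' le_rfl ?_)
        rw [Finset.mul_sum]
        refine Finset.sum_le_sum fun k hk => ?_
        refine hCk ρ (ctr (sR R) k) (sR R) (G k) (M k) i hρ1 (hTC k hk) (hSCH m _ (hTC k hk)).1
          (hM k hk).1 ?_ (hM k hk).2.2
        intro z z'
        refine ((hM k hk).2.1 z z').trans (mul_le_mul' (ENNReal.ofReal_le_ofReal ?_) le_rfl)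
        exact mul_le_mul_of_nonneg_right hC₁c (by positivity)
      · intro k hk ζ hζ
        have hG0 : G k ζ ≠ 0 := fun h => hζ (by simp [hGi, h])
        have ht0 : th (4 * ρ * ζ.1 - i) ≠ 0 := fun h => hζ (by simp [hGi, h])
        obtain ⟨h2, h3, h4, h5⟩ := hsupp k hk ζ hG0
        refine ⟨?_, by linarith, by linarith, h4, h5⟩
        have h6 := th_supp _ ht0
        rw [hρinv]
        have h7 : ζ.1 - (i : ℝ) / (4 * ρ) = (4 * ρ)⁻¹ * (4 * ρ * ζ.1 - i) := by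
          field_simp
        rw [h7, abs_mul, abs_of_pos (by positivity : 0 < (4 * ρ)⁻¹)]
        have h8 : (4 * ρ)⁻¹ ≤ ρ⁻¹ := inv_anti₀ hρ0 (by linarith)
        calc (4 * ρ)⁻¹ * |4 * ρ * ζ.1 - i| ≤ (4 * ρ)⁻¹ * 1 :=
              mul_le_mul_of_nonneg_left h6 (by positivity)
          _ ≤ ρ⁻¹ := by linarith
          _ ≤ D * ρ⁻¹ := le_mul_of_one_le_left (by positivity) hD
    · have hzero : ∀ k ∈ I, ∀ z, TF (Gi i k) z = 0 := by
        intro k hk z
        unfold TF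
        rw [integral_eq_zero_of_ae]
        refine Filter.Eventually.of_forall fun ζ => ?_
        simp only [Pi.zero_apply]
        by_contra hne
        have hGi0 : Gi i k ζ ≠ 0 := fun h => hne (by rw [h, mul_zero])
        have hG0 : G k ζ ≠ 0 := fun h => hGi0 (by simp [hGi, h])
        have ht0 : th (4 * ρ * ζ.1 - i) ≠ 0 := fun h => hGi0 (by simp [hGi, h])
        obtain ⟨h2, h3, -⟩ := hsupp k hk ζ hG0
        have h6 := abs_le.mp (th_supp _ ht0)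
        apply hi
        constructor
        · rw [le_div_iff₀ (by positivity)]
          nlinarith
        · rw [div_le_iff₀ (by positivity)]
          nlinarith
      have h1 : ∀ z, ‖∑ k ∈ I, TF (Gi i k) z‖ₑ ^ P * (∑ k ∈ I, M k z) ^ (1 - P / 2) = 0 := by
        intro z
        rw [Finset.sum_eq_zero fun k hk => hzero k hk z, enorm_zero, ENNReal.zero_rpow_of_pos hP0,
          zero_mul]
      simp only [h1, lintegral_zero, zero_le]
  have hmeasi : ∀ i : ℕ, Measurable (fun z => ‖∑ k ∈ I, TF (Gi i k) z‖ₑ ^ P *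
      (∑ k ∈ I, M k z) ^ (1 - P / 2)) := by
    intro i
    have h1 : Measurable (fun z => ∑ k ∈ I, TF (Gi i k) z) :=
      Finset.measurable_sum _ fun k hk =>
        (hSCH m _ (TC_th (G k) (hTC k hk) (4 * ρ) i)).1.measurable
    have h2 : Measurable (fun z => ∑ k ∈ I, M k z) :=
      Finset.measurable_sum _ fun k hk => (hM k hk).1
    exact (h1.enorm.pow_const P).mul (h2.pow_const _)
  have hpt : ∀ z, ‖∑ k ∈ I, TF (G k) z‖ₑ ^ P * (∑ k ∈ I, M k z) ^ (1 - P / 2)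
      ≤ ENNReal.ofReal ((26 * ρ) ^ (P - 1)) * ∑ i ∈ Finset.range (n + 1),
        ‖∑ k ∈ I, TF (Gi i k) z‖ₑ ^ P * (∑ k ∈ I, M k z) ^ (1 - P / 2) := by
    intro z
    have h1 : ∑ k ∈ I, TF (G k) z = ∑ i ∈ Finset.range (n + 1), ∑ k ∈ I, TF (Gi i k) z := by
      rw [Finset.sum_comm]
      exact Finset.sum_congr rfl fun k hk => hdec k hk z
    rw [h1, ← Finset.sum_mul, ← mul_assoc]
    refine mul_le_mul' ?_ le_rfl
    calc ‖∑ i ∈ Finset.range (n + 1), ∑ k ∈ I, TF (Gi i k) z‖ₑ ^ P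
        ≤ (∑ i ∈ Finset.range (n + 1), ‖∑ k ∈ I, TF (Gi i k) z‖ₑ) ^ P :=
          ENNReal.rpow_le_rpow (enorm_sum_le _ _) hP0.le
      _ ≤ ((Finset.range (n + 1)).card : ℝ≥0∞) ^ (P - 1) *
          ∑ i ∈ Finset.range (n + 1), ‖∑ k ∈ I, TF (Gi i k) z‖ₑ ^ P :=
          ENNReal.rpow_sum_le_const_mul_sum_rpow _ _ (by linarith)
      _ ≤ _ := by
          refine mul_le_mul' ?_ le_rfl
          rw [Finset.card_range, ← ENNReal.ofReal_rpow_of_nonneg (by positivity) (by linarith),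
            ← ENNReal.ofReal_natCast]
          exact ENNReal.rpow_le_rpow (ENNReal.ofReal_le_ofReal hn2) (by linarith)
  calc ∫⁻ z, ‖∑ k ∈ I, TF (G k) z‖ₑ ^ P * (∑ k ∈ I, M k z) ^ (1 - P / 2)
      ≤ ∫⁻ z, ENNReal.ofReal ((26 * ρ) ^ (P - 1)) * ∑ i ∈ Finset.range (n + 1),
        ‖∑ k ∈ I, TF (Gi i k) z‖ₑ ^ P * (∑ k ∈ I, M k z) ^ (1 - P / 2) := lintegral_mono hpt
    _ = ENNReal.ofReal ((26 * ρ) ^ (P - 1)) * ∑ i ∈ Finset.range (n + 1),
        ∫⁻ z, ‖∑ k ∈ I, TF (Gi i k) z‖ₑ ^ P * (∑ k ∈ I, M k z) ^ (1 - P / 2) := by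
        rw [lintegral_const_mul' _ _ ENNReal.ofReal_ne_top,
          lintegral_finsetSum _ fun i _ => hmeasi i]
    _ ≤ ENNReal.ofReal ((26 * ρ) ^ (P - 1)) * ∑ i ∈ Finset.range (n + 1),
        (ENNReal.ofReal (CT * ρ) * (Ck * ∑ k ∈ I, ∫⁻ z, ‖TF (G k) z‖ₑ ^ P *
          M k z ^ (1 - P / 2))) := mul_le_mul' le_rfl (Finset.sum_le_sum fun i _ => hslice i)
    _ = ENNReal.ofReal ((26 * ρ) ^ (P - 1)) * (((n + 1 : ℕ) : ℝ≥0∞) *
        (ENNReal.ofReal (CT * ρ) * Ck)) * ∑ k ∈ I, ∫⁻ z, ‖TF (G k) z‖ₑ ^ P *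
          M k z ^ (1 - P / 2) := by
        rw [Finset.sum_const, Finset.card_range, nsmul_eq_mul]
        ring
    _ ≤ _ := by
        refine mul_le_mul' ?_ le_rfl
        rw [← ENNReal.ofReal_natCast, show (Ck : ℝ≥0∞) = ENNReal.ofReal (Ck : ℝ) by simp,
          ← ENNReal.ofReal_mul (by positivity), ← ENNReal.ofReal_mul (by positivity),
          ← ENNReal.ofReal_mul (by positivity)]
        refine ENNReal.ofReal_le_ofReal ?_
        have h1 : R ^ ((P + 1) / (J : ℝ)) = ρ ^ P * ρ := by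
          rw [hρ, ← Real.rpow_mul hR0.le, ← Real.rpow_add hR0]
          congr 1
          field_simp
        have h2 : (26 * ρ) ^ (P - 1) * (26 * ρ) = 26 ^ P * ρ ^ P := by
          rw [← Real.mul_rpow (by norm_num) hρ0.le]
          conv_rhs => rw [show P = P - 1 + 1 by ring, Real.rpow_add (by positivity), Real.rpow_one]
        rw [h1]
        have hCk0 : (0 : ℝ) ≤ Ck := Ck.2
        calc (26 * ρ) ^ (P - 1) * (((n + 1 : ℕ) : ℝ) * (CT * ρ * Ck))
            ≤ (26 * ρ) ^ (P - 1) * ((26 * ρ) * (CT * ρ * (Ck + 1))) := by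
              refine mul_le_mul_of_nonneg_left ?_ (by positivity)
              refine mul_le_mul hn2 ?_ (by positivity) (by positivity)
              exact mul_le_mul_of_nonneg_left (by linarith) (by positivity)
          _ = ((26 * ρ) ^ (P - 1) * (26 * ρ)) * (CT * ρ * (Ck + 1)) := by ring
          _ = 26 ^ P * ρ ^ P * (CT * ρ * (Ck + 1)) := by rw [h2]
          _ = _ := by ring

end Pool.Agent.H84.G.RDA
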