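import Pool.Agent.H83.G.Targets3

/-! RDS: one step of the refined decoupling (board g_modules, MP_ee74d2_an, Theorem G). -/

set_option autoImplicit false

open MeasureTheory Set
open scoped ENNReal NNReal RealInnerProductSpace

namespace Pool.Agent.H84.G.RDS

open Pool.Agent.H83.G

private theorem hol {ι : Type} (T : Finset ι) (hT : T.Nonempty) (P : ℝ) (hP : 2 ≤ P)
    (x M : ι → ℝ≥0∞) (hM : ∀ t ∈ T, M t ≠ 0 ∧ M t ≠ ⊤) :
    (∑ t ∈ T, x t ^ (2 / P)) ^ (P / 2) * (∑ t ∈ T, M t) ^ (1 - P / 2) ≤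
      ∑ t ∈ T, x t * M t ^ (1 - P / 2) := by
  have hP0 : 0 < P := by linarith
  have h2P : 0 < 2 / P := by positivity
  have hP2 : 0 < P / 2 := by positivity
  set W := ∑ t ∈ T, M t with hW
  have hW0 : W ≠ 0 := by
    obtain ⟨i, hi⟩ := hT
    intro h
    exact (hM i hi).1 ((Finset.sum_eq_zero_iff.mp h) i hi)
  have hWt : W ≠ ∞ := ENNReal.sum_ne_top.mpr fun t ht => (hM t ht).2
  have hmu : ∑ i ∈ T, M i / W = 1 := by
    rw [Finset.sum_congr rfl (fun i _ => div_eq_mul_inv (M i) W),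
      ← Finset.sum_mul, ← hW, ENNReal.mul_inv_cancel hW0 hWt]
  have key := ENNReal.rpow_arith_mean_le_arith_mean_rpow T (fun i => M i / W)
    (fun i => (x i / M i ^ (P / 2)) ^ (2 / P)) hmu (p := P / 2) (by linarith)
  have hMp : ∀ t ∈ T, M t ^ (P / 2) ≠ 0 ∧ M t ^ (P / 2) ≠ ∞ := fun t ht =>
    ⟨fun h => by
      rcases ENNReal.rpow_eq_zero_iff.mp h with h2 | h2
      · exact (hM t ht).1 h2.1
      · exact (hM t ht).2 h2.1, ENNReal.rpow_ne_top_of_nonneg hP2.le (hM t ht).2⟩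
  have e1 : ∀ t ∈ T, x t ^ (2 / P) = W * (M t / W * (x t / M t ^ (P / 2)) ^ (2 / P)) := by
    intro t ht
    have h1 : (M t ^ (P / 2)) ^ (2 / P) = M t := by
      rw [← ENNReal.rpow_mul, show P / 2 * (2 / P) = 1 by field_simp, ENNReal.rpow_one]
    rw [← mul_assoc, ENNReal.mul_div_cancel hW0 hWt]
    calc x t ^ (2 / P) = (M t ^ (P / 2) * (x t / M t ^ (P / 2))) ^ (2 / P) := by
          rw [ENNReal.mul_div_cancel (hMp t ht).1 (hMp t ht).2]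
      _ = M t * (x t / M t ^ (P / 2)) ^ (2 / P) := by
          rw [ENNReal.mul_rpow_of_nonneg _ _ h2P.le, h1]
  have e2 : ∀ t ∈ T, M t / W * ((x t / M t ^ (P / 2)) ^ (2 / P)) ^ (P / 2)
      = W⁻¹ * (x t * M t ^ (1 - P / 2)) := by
    intro t ht
    rw [← ENNReal.rpow_mul, show 2 / P * (P / 2) = 1 by field_simp, ENNReal.rpow_one,
      sub_eq_add_neg, ENNReal.rpow_add _ _ (hM t ht).1 (hM t ht).2, ENNReal.rpow_one,
      ENNReal.rpow_neg, div_eq_mul_inv, div_eq_mul_inv]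
    ring
  rw [Finset.sum_congr rfl e1, ← Finset.mul_sum, ENNReal.mul_rpow_of_nonneg _ _ hP2.le,
    mul_assoc, mul_comm (_ ^ (P / 2)) (W ^ (1 - P / 2)), ← mul_assoc, ← ENNReal.rpow_add _ _ hW0 hWt,
    show P / 2 + (1 - P / 2) = 1 by ring, ENNReal.rpow_one]
  rw [Finset.sum_congr rfl e2, ← Finset.mul_sum] at key
  calc W * (∑ i ∈ T, M i / W * (x i / M i ^ (P / 2)) ^ (2 / P)) ^ (P / 2)
      ≤ W * (W⁻¹ * ∑ t ∈ T, x t * M t ^ (1 - P / 2)) := mul_le_mul' le_rfl key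
    _ = _ := by rw [← mul_assoc, ENNReal.mul_inv_cancel hW0 hWt, one_mul]

private theorem pow_neg_le (a b c : ℝ≥0∞) (e : ℝ) (he : 0 ≤ e) (ha : a ≠ 0) (ha' : a ≠ ⊤)
    (hb : b ≠ 0) (hb' : b ≠ ⊤) (h : a ≤ c * b) : b ^ (-e) ≤ c ^ e * a ^ (-e) := by
  have h1 : a ^ e ≤ c ^ e * b ^ e := by
    rw [← ENNReal.mul_rpow_of_nonneg _ _ he]
    exact ENNReal.rpow_le_rpow h he
  have ha1 : a ^ e * a ^ (-e) = 1 := by
    rw [← ENNReal.rpow_add _ _ ha ha', add_neg_cancel, ENNReal.rpow_zero]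
  have hb1 : b ^ e * b ^ (-e) = 1 := by
    rw [← ENNReal.rpow_add _ _ hb hb', add_neg_cancel, ENNReal.rpow_zero]
  calc b ^ (-e) = b ^ (-e) * (a ^ e * a ^ (-e)) := by rw [ha1, mul_one]
    _ ≤ b ^ (-e) * ((c ^ e * b ^ e) * a ^ (-e)) :=
        mul_le_mul' le_rfl (mul_le_mul' h1 le_rfl)
    _ = (b ^ e * b ^ (-e)) * (c ^ e * a ^ (-e)) := by ring
    _ = _ := by rw [hb1, one_mul]

private theorem bd1 (hBDZ : T_BDZ) (hSCL : T_SCL) (hLOA : T_LOA) (hLOI : T_LOI)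
    (m N : ℕ) (P ε D : ℝ) (hm : 1 ≤ m) (hP : 2 ≤ P) (hmP : m * (P - 2) < 4) (hε : 0 < ε)
    (hD : 1 ≤ D) :
    ∃ C : ℝ, 0 < C ∧ ∀ (K a₀ s : ℝ) (η : E m) (ι : Type) (T : Finset ι)
      (c : ι → E m) (G : ι → Z m → ℂ), 1 ≤ K → 1 / 4 ≤ a₀ → a₀ ≤ 8 → 0 < s →
      (∀ t ∈ T, ‖c t - η‖ ≤ D * s) →
      (∀ (y : E m), ∀ J ⊆ T, (∀ t ∈ J, ‖y - c t‖ ≤ s * K⁻¹) → (J.card : ℝ) ≤ D) →
      (∀ t ∈ T, TC (G t)) →
      (∀ t ∈ T, ∀ ζ, G t ζ ≠ 0 → |ζ.1 - a₀| ≤ D * K⁻¹ ^ 2 ∧ 1 / 4 ≤ ζ.1 ∧ ζ.1 ≤ 8 ∧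
        ‖ζ.1⁻¹ • ζ.2.1 - c t‖ ≤ D * (s * K⁻¹) ∧
        |ζ.2.2 - ‖ζ.2.1‖ ^ 2 / ζ.1| ≤ D * (s * K⁻¹) ^ 2) → ∀ x : Z m,
      ∫⁻ z in {z : Z m | ‖K⁻¹ ^ 2 • Lo η s z - x‖ ≤ 1}, ‖∑ t ∈ T, TF (G t) z‖ₑ ^ P ≤
        ENNReal.ofReal (C * K ^ ε) * (∑ t ∈ T, (∫⁻ z, ‖TF (G t) z‖ₑ ^ P *
          ENNReal.ofReal (wt N (K⁻¹ ^ 2 • Lo η s z - x))) ^ (2 / P)) ^ (P / 2) := by
  obtain ⟨C, hC0, hC⟩ := hBDZ m N P ε D hm hP hmP hε hD
  refine ⟨C, hC0, ?_⟩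
  intro K a₀ s η ι T c G hK ha ha' hs hcη hmult hTC hsupp x
  have hP0 : 0 < P := by linarith
  have hK0 : 0 < K := by linarith
  set G' : ι → Z m → ℂ := fun t ζ => ((s ^ (m + 2) : ℝ) : ℂ) * G t (Ld η s ζ) with hG'
  have hTC' : ∀ t ∈ T, TC (G' t) := by
    intro t ht
    have h1 := (hSCL m η s (G t) hs (hTC t ht)).1
    refine ⟨contDiff_const.mul h1.1, ?_⟩
    exact HasCompactSupport.mul_left (f := fun _ => ((s ^ (m + 2) : ℝ) : ℂ)) h1.2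
  have hTF : ∀ t ∈ T, ∀ z, TF (G t) z = TF (G' t) (Lo η s z) := by
    intro t ht z
    rw [(hSCL m η s (G t) hs (hTC t ht)).2 z]
    unfold TF
    rw [← integral_const_mul]
    refine integral_congr_ae (Filter.Eventually.of_forall fun ζ => ?_)
    simp only [hG']
    ring
  have hsum : ∀ z, ∑ t ∈ T, TF (G t) z = ∑ t ∈ T, TF (G' t) (Lo η s z) := fun z =>
    Finset.sum_congr rfl fun t ht => hTF t ht z
  have hLo := (hLOI m η s hs).1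
  have hLoc : Continuous (Lo η s) := (hLOI m η s hs).2.2.2.2.1.continuous
  have hsi : (0 : ℝ) < s⁻¹ := inv_pos.mpr hs
  -- the theorem for the rescaled functions
  have key := hC K a₀ ι T (fun t => s⁻¹ • (c t - η)) G' x hK ha ha' ?_ ?_ hTC' ?_
  · -- change of variables
    set S : Set (Z m) := {y | ‖K⁻¹ ^ 2 • y - x‖ ≤ 1} with hS
    have hSm : MeasurableSet S := measurableSet_le (by fun_prop) measurable_const
    have hSm' : MeasurableSet {z : Z m | ‖K⁻¹ ^ 2 • Lo η s z - x‖ ≤ 1} := hLoc.measurable hSm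
    have e1 : ∫⁻ z in {z : Z m | ‖K⁻¹ ^ 2 • Lo η s z - x‖ ≤ 1}, ‖∑ t ∈ T, TF (G t) z‖ₑ ^ P
        = ENNReal.ofReal ((s⁻¹) ^ (m + 2)) * ∫⁻ y in S, ‖∑ t ∈ T, TF (G' t) y‖ₑ ^ P := by
      rw [← lintegral_indicator hSm, ← hLo, ← lintegral_indicator hSm']
      refine lintegral_congr fun z => ?_
      simp only [Set.indicator]
      have : (z ∈ {z : Z m | ‖K⁻¹ ^ 2 • Lo η s z - x‖ ≤ 1}) ↔ Lo η s z ∈ S := Iff.rfl
      by_cases hz : Lo η s z ∈ S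
      · rw [if_pos (this.mpr hz), if_pos hz, hsum]
      · rw [if_neg (fun h => hz (this.mp h)), if_neg hz]
    have e2 : ∀ t ∈ T, ∫⁻ z, ‖TF (G t) z‖ₑ ^ P *
          ENNReal.ofReal (wt N (K⁻¹ ^ 2 • Lo η s z - x))
        = ENNReal.ofReal ((s⁻¹) ^ (m + 2)) * ∫⁻ y, ‖TF (G' t) y‖ₑ ^ P *
          ENNReal.ofReal (wt N (K⁻¹ ^ 2 • y - x)) := by
      intro t ht
      rw [← hLo (fun y => ‖TF (G' t) y‖ₑ ^ P * ENNReal.ofReal (wt N (K⁻¹ ^ 2 • y - x)))]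
      exact lintegral_congr fun z => by rw [hTF t ht]
    rw [e1, Finset.sum_congr rfl fun t ht => by rw [e2 t ht]]
    set b := ENNReal.ofReal ((s⁻¹) ^ (m + 2)) with hb
    have e3 : (∑ t ∈ T, (b * ∫⁻ y, ‖TF (G' t) y‖ₑ ^ P *
          ENNReal.ofReal (wt N (K⁻¹ ^ 2 • y - x))) ^ (2 / P)) ^ (P / 2)
        = b * (∑ t ∈ T, (∫⁻ y, ‖TF (G' t) y‖ₑ ^ P *
          ENNReal.ofReal (wt N (K⁻¹ ^ 2 • y - x))) ^ (2 / P)) ^ (P / 2) := by
      simp_rw [ENNReal.mul_rpow_of_nonneg _ _ (show 0 ≤ 2 / P by positivity)]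
      rw [← Finset.mul_sum, ENNReal.mul_rpow_of_nonneg _ _ (show 0 ≤ P / 2 by positivity),
        ← ENNReal.rpow_mul, show 2 / P * (P / 2) = 1 by field_simp, ENNReal.rpow_one]
    rw [e3]
    calc b * ∫⁻ y in S, ‖∑ t ∈ T, TF (G' t) y‖ₑ ^ P ≤ b * _ := mul_le_mul' le_rfl key
      _ = _ := by ring
  · intro t ht
    rw [norm_smul, Real.norm_eq_abs, abs_of_pos hsi, inv_mul_le_iff₀ hs, mul_comm s D]
    exact hcη t ht
  · intro y J hJ hJy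
    refine hmult (η + s • y) J hJ fun t ht => ?_
    have h1 := hJy t ht
    have h2 : η + s • y - c t = s • (y - s⁻¹ • (c t - η)) := by
      rw [smul_sub, smul_inv_smul₀ hs.ne']; abel
    rw [h2, norm_smul, Real.norm_eq_abs, abs_of_pos hs]
    exact mul_le_mul_of_nonneg_left h1 hs.le
  · intro t ht ζ hζ
    have h1 : G t (Ld η s ζ) ≠ 0 := fun h => hζ (by simp [hG', h])
    obtain ⟨q1, q2, q3, q4, q5⟩ := hsupp t ht _ h1
    have e0 : (Ld η s ζ).1 = ζ.1 := rfl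
    rw [e0] at q1 q2 q3
    have hζ1 : ζ.1 ≠ 0 := by
      intro h; rw [h] at q2; norm_num at q2
    obtain ⟨-, r1, r2⟩ := (hLOA m).2.2.2.2.2 η s ζ hζ1
    refine ⟨q1, q2, q3, ?_, ?_⟩
    · have h2 : (Ld η s ζ).1⁻¹ • (Ld η s ζ).2.1 - c t
          = s • (ζ.1⁻¹ • ζ.2.1 - s⁻¹ • (c t - η)) := by
        rw [smul_sub, smul_inv_smul₀ hs.ne', ← r1]; abel
      rw [h2, norm_smul, Real.norm_eq_abs, abs_of_pos hs] at q4
      have h3 : s * ‖ζ.1⁻¹ • ζ.2.1 - s⁻¹ • (c t - η)‖ ≤ s * (D * K⁻¹) := by linarith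
      exact le_of_mul_le_mul_left h3 hs
    · rw [r2, abs_mul, abs_of_pos (by positivity : 0 < s ^ 2)] at q5
      have h3 : s ^ 2 * |ζ.2.2 - ‖ζ.2.1‖ ^ 2 / ζ.1| ≤ s ^ 2 * (D * K⁻¹ ^ 2) := by
        calc _ ≤ D * (s * K⁻¹) ^ 2 := q5
          _ = _ := by ring
      exact le_of_mul_le_mul_left h3 (by positivity)

private theorem rpow_le_sq (b : ℝ≥0∞) (e : ℝ) (hb : 1 ≤ b) (he : e ≤ 2) : b ^ e ≤ b ^ 2 := by
  rw [← ENNReal.rpow_two]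
  exact ENNReal.rpow_le_rpow_of_exponent_le hb he

theorem pf_RDS (hBDZ : T_BDZ) (hSCL : T_SCL) (hLOA : T_LOA) (hLOI : T_LOI) (hWT1 : T_WT1)
    (hWT3 : T_WT3) (hSCH : T_SCH) : T_RDS := by
  intro m N₁ P ε D C₁ hm hP hmP hε hD hC₁
  obtain ⟨C, hC0, hC⟩ := bd1 hBDZ hSCL hLOA hLOI m (m + 3 + 2 * N₁) P ε D hm hP hmP hε hD
  obtain ⟨CW, hCW, -, -, -, hcov⟩ := hWT3 m (m + 3) le_rfl
  set c₂ : ℝ := max C₁ 1 with hc₂
  have hc1 : 1 ≤ c₂ := le_max_right _ _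
  have hc0 : 0 < c₂ := by linarith
  have hC₁c : C₁ ≤ c₂ := le_max_left _ _
  have hm0 : (0 : ℝ) < (m : ℝ) + 1 := by positivity
  have hP0 : 0 < P := by linarith
  have hm1 : (1 : ℝ) ≤ m := by exact_mod_cast hm
  have he0 : 0 ≤ P / 2 - 1 := by linarith
  have he2 : P / 2 - 1 ≤ 2 := by nlinarith
  refine ⟨(c₂ * 2 ^ N₁) ^ 2 * C * (c₂ ^ 2 * (CW * ((m : ℝ) + 1) ^ (m + 2))) + 1, by positivity, ?_⟩
  intro K a₀ s η ι T c G M hK ha ha' hs hcη hmult hTC hsupp hM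
  have hK0 : 0 < K := by linarith
  rcases T.eq_empty_or_nonempty with rfl | hne
  · have : ∀ z : Z m, ‖∑ t ∈ (∅ : Finset ι), TF (G t) z‖ₑ ^ P = 0 := fun z => by
      simp [hP0]
    simp [hP0]
  have hLo := (hLOI m η s hs).1
  have hLoc : Continuous (Lo η s) := (hLOI m η s hs).2.2.2.2.1.continuous
  set xj : Zi m → Z m := fun j => ((m : ℝ) + 1)⁻¹ • zc j with hxj
  set zj : Zi m → Z m := fun j => Lo (-(s⁻¹ • η)) s⁻¹ (K ^ 2 • xj j) with hzj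
  have hzjL : ∀ j, Lo η s (zj j) = K ^ 2 • xj j := by
    intro j
    rw [hzj]
    simp only
    rw [((hLOA m).2.2.2.1 (-(s⁻¹ • η)) η s⁻¹ s (K ^ 2 • xj j)).1, neg_add_cancel,
      inv_mul_cancel₀ hs.ne']
    exact ((hLOA m).2.2.2.2.1 _).1
  have hsub : ∀ j z, (K ^ 2)⁻¹ • Lo η s (z - zj j) = K⁻¹ ^ 2 • Lo η s z - xj j := by
    intro j z
    rw [((hLOA m).1 η s z (zj j)).2.1, hzjL, smul_sub, inv_smul_smul₀ (by positivity), inv_pow]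
  have hsub' : ∀ j z, ‖(K ^ 2)⁻¹ • Lo η s (zj j - z)‖ = ‖K⁻¹ ^ 2 • Lo η s z - xj j‖ := by
    intro j z
    rw [((hLOA m).1 η s (zj j) z).2.1, hzjL, smul_sub, inv_smul_smul₀ (by positivity), inv_pow,
      norm_sub_rev]
  -- the two comparisons
  have hs1 : ∀ t ∈ T, ∀ j z, M t (zj j) ≤
      ENNReal.ofReal (c₂ * (1 + ‖K⁻¹ ^ 2 • Lo η s z - xj j‖) ^ N₁) * M t z := by
    intro t ht j z
    refine ((hM t ht).2.1 (zj j) z).trans (mul_le_mul' (ENNReal.ofReal_le_ofReal ?_) le_rfl)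
    rw [hsub']
    exact mul_le_mul_of_nonneg_right hC₁c (by positivity)
  have hs2 : ∀ t ∈ T, ∀ j z, M t z ≤
      ENNReal.ofReal (c₂ * (1 + ‖K⁻¹ ^ 2 • Lo η s z - xj j‖) ^ N₁) * M t (zj j) := by
    intro t ht j z
    refine ((hM t ht).2.1 z (zj j)).trans (mul_le_mul' (ENNReal.ofReal_le_ofReal ?_) le_rfl)
    rw [hsub]
    exact mul_le_mul_of_nonneg_right hC₁c (by positivity)
  have hMs : ∀ z, ∑ t ∈ T, M t z ≠ 0 ∧ ∑ t ∈ T, M t z ≠ ⊤ := by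
    intro z
    refine ⟨?_, ENNReal.sum_ne_top.mpr fun t ht => ((hM t ht).2.2 z).2⟩
    obtain ⟨i, hi⟩ := hne
    intro h
    exact ((hM i hi).2.2 z).1 ((Finset.sum_eq_zero_iff.mp h) i hi)
  have hexp : 1 - P / 2 = -(P / 2 - 1) := by ring
  set B : Zi m → Set (Z m) := fun j => {z : Z m | ‖K⁻¹ ^ 2 • Lo η s z - xj j‖ ≤ 1} with hB
  have hBm : ∀ j, MeasurableSet (B j) := by
    intro j
    refine measurableSet_le ?_ measurable_const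
    fun_prop
  have hcover : ⋃ j, B j = Set.univ := by
    refine Set.eq_univ_of_forall fun z => ?_
    obtain ⟨l, hl⟩ := hcov (((m : ℝ) + 1) • (K⁻¹ ^ 2 • Lo η s z))
    refine Set.mem_iUnion.mpr ⟨l, ?_⟩
    show ‖K⁻¹ ^ 2 • Lo η s z - ((m : ℝ) + 1)⁻¹ • zc l‖ ≤ 1
    have h1 : K⁻¹ ^ 2 • Lo η s z - ((m : ℝ) + 1)⁻¹ • zc l
        = ((m : ℝ) + 1)⁻¹ • (((m : ℝ) + 1) • (K⁻¹ ^ 2 • Lo η s z) - zc l) := by
      rw [smul_sub, inv_smul_smul₀ hm0.ne']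
    rw [h1, norm_smul, Real.norm_eq_abs, abs_of_pos (inv_pos.mpr hm0), inv_mul_le_iff₀ hm0, mul_one]
    exact hl
  set Φ : Z m → ℝ≥0∞ := fun z =>
    ‖∑ t ∈ T, TF (G t) z‖ₑ ^ P * (∑ t ∈ T, M t z) ^ (1 - P / 2) with hΦ
  set f : ι → Z m → ℝ≥0∞ := fun t z => ‖TF (G t) z‖ₑ ^ P * M t z ^ (1 - P / 2) with hf
  have hfm : ∀ t ∈ T, Measurable (f t) := fun t ht =>
    (((hSCH m (G t) (hTC t ht)).1.measurable.enorm).pow_const P).mul ((hM t ht).1.pow_const _)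
  have hwm : ∀ j, Measurable (fun z : Z m =>
      ENNReal.ofReal (wt (m + 3) (xj j - K⁻¹ ^ 2 • Lo η s z))) := by
    intro j
    have h1 := (hWT1 m (m + 3)).2.1
    exact ENNReal.measurable_ofReal.comp (h1.measurable.comp (by fun_prop))
  -- one ball
  have hone : ∀ j, ∫⁻ z in B j, Φ z ≤ ENNReal.ofReal ((c₂ * 2 ^ N₁) ^ 2 * C * K ^ ε) *
      ∑ t ∈ T, ∫⁻ z, f t z * (ENNReal.ofReal (c₂ ^ 2) *
        ENNReal.ofReal (wt (m + 3) (xj j - K⁻¹ ^ 2 • Lo η s z))) := by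
    intro j
    set Mj : ℝ≥0∞ := (∑ t ∈ T, M t (zj j)) ^ (1 - P / 2) with hMj
    have hMjt : Mj ≠ ⊤ := by
      rw [hMj, hexp, ENNReal.rpow_neg]
      refine ENNReal.inv_ne_top.mpr fun h => ?_
      rcases ENNReal.rpow_eq_zero_iff.mp h with h2 | h2
      · exact (hMs _).1 h2.1
      · exact (hMs _).2 h2.1
    have h1 : ∫⁻ z in B j, Φ z ≤ ∫⁻ z in B j, ‖∑ t ∈ T, TF (G t) z‖ₑ ^ P *
        (ENNReal.ofReal ((c₂ * 2 ^ N₁) ^ 2) * Mj) := by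
      refine setLIntegral_mono' (hBm j) fun z hz => ?_
      refine mul_le_mul' le_rfl ?_
      rw [hMj, hexp]
      have hz1 : (1 + ‖K⁻¹ ^ 2 • Lo η s z - xj j‖) ≤ 2 := by
        have : ‖K⁻¹ ^ 2 • Lo η s z - xj j‖ ≤ 1 := hz
        linarith
      have h2 : ∑ t ∈ T, M t (zj j) ≤ ENNReal.ofReal (c₂ * 2 ^ N₁) * ∑ t ∈ T, M t z := by
        rw [Finset.mul_sum]
        refine Finset.sum_le_sum fun t ht => (hs1 t ht j z).trans ?_
        refine mul_le_mul' (ENNReal.ofReal_le_ofReal ?_) le_rfl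
        exact mul_le_mul_of_nonneg_left (pow_le_pow_left₀ (by positivity) hz1 _) hc0.le
      refine (pow_neg_le _ _ _ _ he0 (hMs _).1 (hMs _).2 (hMs _).1 (hMs _).2 h2).trans ?_
      refine mul_le_mul' ?_ le_rfl
      rw [ENNReal.ofReal_pow (by positivity)]
      refine rpow_le_sq _ _ ?_ he2
      rw [← ENNReal.ofReal_one]
      refine ENNReal.ofReal_le_ofReal ?_
      exact one_le_mul_of_one_le_of_one_le hc1 (one_le_pow₀ (by norm_num))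
    have h3 := hC K a₀ s η ι T c G hK ha ha' hs hcη hmult hTC hsupp (xj j)
    have h4 := hol T hne P hP (fun t => ∫⁻ z, ‖TF (G t) z‖ₑ ^ P *
          ENNReal.ofReal (wt (m + 3 + 2 * N₁) (K⁻¹ ^ 2 • Lo η s z - xj j)))
          (fun t => M t (zj j)) (fun t ht => (hM t ht).2.2 _)
    have h5 : ∀ t ∈ T, (∫⁻ z, ‖TF (G t) z‖ₑ ^ P *
          ENNReal.ofReal (wt (m + 3 + 2 * N₁) (K⁻¹ ^ 2 • Lo η s z - xj j))) *
          M t (zj j) ^ (1 - P / 2) ≤ ∫⁻ z, f t z * (ENNReal.ofReal (c₂ ^ 2) *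
        ENNReal.ofReal (wt (m + 3) (xj j - K⁻¹ ^ 2 • Lo η s z))) := by
      intro t ht
      have hne' : M t (zj j) ^ (1 - P / 2) ≠ ⊤ := by
        rw [hexp, ENNReal.rpow_neg]
        refine ENNReal.inv_ne_top.mpr fun h => ?_
        rcases ENNReal.rpow_eq_zero_iff.mp h with h2 | h2
        · exact ((hM t ht).2.2 _).1 h2.1
        · exact ((hM t ht).2.2 _).2 h2.1
      rw [← lintegral_mul_const' _ _ hne']
      refine lintegral_mono fun z => ?_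
      simp only [hf]
      set y := K⁻¹ ^ 2 • Lo η s z - xj j with hy
      have h6 : M t (zj j) ^ (1 - P / 2) ≤
          ENNReal.ofReal ((c₂ * (1 + ‖y‖) ^ N₁) ^ 2) * M t z ^ (1 - P / 2) := by
        rw [hexp]
        refine (pow_neg_le _ _ _ _ he0 ((hM t ht).2.2 z).1 ((hM t ht).2.2 z).2
          ((hM t ht).2.2 _).1 ((hM t ht).2.2 _).2 (hs2 t ht j z)).trans ?_
        refine mul_le_mul' ?_ le_rfl
        rw [ENNReal.ofReal_pow (by positivity)]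
        refine rpow_le_sq _ _ ?_ he2
        rw [← ENNReal.ofReal_one]
        refine ENNReal.ofReal_le_ofReal ?_
        refine one_le_mul_of_one_le_of_one_le hc1 (one_le_pow₀ ?_)
        have := norm_nonneg y
        linarith
      have h7 : wt (m + 3 + 2 * N₁) y * (c₂ * (1 + ‖y‖) ^ N₁) ^ 2
          = c₂ ^ 2 * wt (m + 3) (xj j - K⁻¹ ^ 2 • Lo η s z) := by
        have h8 : ‖xj j - K⁻¹ ^ 2 • Lo η s z‖ = ‖y‖ := by rw [hy, norm_sub_rev]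
        unfold wt
        rw [h8]
        have h9 : (0 : ℝ) < 1 + ‖y‖ := by positivity
        rw [pow_add (1 + ‖y‖) (m + 3) (2 * N₁), mul_pow, ← pow_mul, mul_comm N₁ 2]
        field_simp
      calc ‖TF (G t) z‖ₑ ^ P * ENNReal.ofReal (wt (m + 3 + 2 * N₁) y) * M t (zj j) ^ (1 - P / 2)
          ≤ ‖TF (G t) z‖ₑ ^ P * ENNReal.ofReal (wt (m + 3 + 2 * N₁) y) *
            (ENNReal.ofReal ((c₂ * (1 + ‖y‖) ^ N₁) ^ 2) * M t z ^ (1 - P / 2)) :=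
            mul_le_mul' le_rfl h6
        _ = ‖TF (G t) z‖ₑ ^ P * M t z ^ (1 - P / 2) *
            (ENNReal.ofReal (wt (m + 3 + 2 * N₁) y) *
              ENNReal.ofReal ((c₂ * (1 + ‖y‖) ^ N₁) ^ 2)) := by ring
        _ = _ := by
            rw [← ENNReal.ofReal_mul ((hWT1 m _).1 y).1.le, h7,
              ENNReal.ofReal_mul (by positivity)]
    calc ∫⁻ z in B j, Φ z ≤ _ := h1
      _ = (∫⁻ z in B j, ‖∑ t ∈ T, TF (G t) z‖ₑ ^ P) *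
          (ENNReal.ofReal ((c₂ * 2 ^ N₁) ^ 2) * Mj) :=
          lintegral_mul_const' _ _ (ENNReal.mul_ne_top ENNReal.ofReal_ne_top hMjt)
      _ ≤ (ENNReal.ofReal (C * K ^ ε) * (∑ t ∈ T, (∫⁻ z, ‖TF (G t) z‖ₑ ^ P *
          ENNReal.ofReal (wt (m + 3 + 2 * N₁) (K⁻¹ ^ 2 • Lo η s z - xj j))) ^ (2 / P)) ^ (P / 2)) *
          (ENNReal.ofReal ((c₂ * 2 ^ N₁) ^ 2) * Mj) := mul_le_mul' h3 le_rfl
      _ = ENNReal.ofReal ((c₂ * 2 ^ N₁) ^ 2) * ENNReal.ofReal (C * K ^ ε) *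
          ((∑ t ∈ T, (∫⁻ z, ‖TF (G t) z‖ₑ ^ P *
          ENNReal.ofReal (wt (m + 3 + 2 * N₁) (K⁻¹ ^ 2 • Lo η s z - xj j))) ^ (2 / P)) ^ (P / 2) *
          Mj) := by ring
      _ ≤ ENNReal.ofReal ((c₂ * 2 ^ N₁) ^ 2) * ENNReal.ofReal (C * K ^ ε) * _ :=
          mul_le_mul' le_rfl (h4.trans (Finset.sum_le_sum h5))
      _ = _ := by
          rw [← ENNReal.ofReal_mul (by positivity)]
          congr 2
          ring
  -- sum over the balls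
  have hsumj : ∀ z, ∑' j, ENNReal.ofReal (wt (m + 3) (xj j - K⁻¹ ^ 2 • Lo η s z))
      ≤ CW * ENNReal.ofReal (((m : ℝ) + 1) ^ (m + 2)) := by
    intro z
    have := hCW ((m : ℝ) + 1)⁻¹ (K⁻¹ ^ 2 • Lo η s z) (inv_pos.mpr hm0)
      (inv_le_one_of_one_le₀ (by linarith))
    rwa [inv_inv] at this
  calc ∫⁻ z, Φ z = ∫⁻ z in ⋃ j, B j, Φ z := by rw [hcover, Measure.restrict_univ]
    _ ≤ ∑' j, ∫⁻ z in B j, Φ z := lintegral_iUnion_le _ _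
    _ ≤ ∑' j, ENNReal.ofReal ((c₂ * 2 ^ N₁) ^ 2 * C * K ^ ε) *
      ∑ t ∈ T, ∫⁻ z, f t z * (ENNReal.ofReal (c₂ ^ 2) *
        ENNReal.ofReal (wt (m + 3) (xj j - K⁻¹ ^ 2 • Lo η s z))) := ENNReal.tsum_le_tsum hone
    _ = ENNReal.ofReal ((c₂ * 2 ^ N₁) ^ 2 * C * K ^ ε) *
      ∑ t ∈ T, ∫⁻ z, f t z * (ENNReal.ofReal (c₂ ^ 2) *
        ∑' j, ENNReal.ofReal (wt (m + 3) (xj j - K⁻¹ ^ 2 • Lo η s z))) := by
        rw [ENNReal.tsum_mul_left, Summable.tsum_finsetSum fun t _ => ENNReal.summable]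
        congr 1
        refine Finset.sum_congr rfl fun t ht => ?_
        rw [← lintegral_tsum]
        · refine lintegral_congr fun z => ?_
          rw [ENNReal.tsum_mul_left, ENNReal.tsum_mul_left]
        · intro j
          exact ((hfm t ht).mul ((hwm j).const_mul _)).aemeasurable
    _ ≤ ENNReal.ofReal ((c₂ * 2 ^ N₁) ^ 2 * C * K ^ ε) *
      ∑ t ∈ T, (∫⁻ z, f t z) * (ENNReal.ofReal (c₂ ^ 2) *
        (CW * ENNReal.ofReal (((m : ℝ) + 1) ^ (m + 2)))) := by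
        refine mul_le_mul' le_rfl (Finset.sum_le_sum fun t ht => ?_)
        rw [← lintegral_mul_const _ (hfm t ht)]
        exact lintegral_mono fun z => mul_le_mul' le_rfl (mul_le_mul' le_rfl (hsumj z))
    _ = ENNReal.ofReal ((c₂ * 2 ^ N₁) ^ 2 * C * K ^ ε) *
        (ENNReal.ofReal (c₂ ^ 2) * (CW * ENNReal.ofReal (((m : ℝ) + 1) ^ (m + 2)))) *
        ∑ t ∈ T, ∫⁻ z, f t z := by
        rw [← Finset.sum_mul]; ring
    _ ≤ _ := by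
        refine mul_le_mul' ?_ le_rfl
        rw [show (CW : ℝ≥0∞) = ENNReal.ofReal (CW : ℝ) by simp,
          ← ENNReal.ofReal_mul (by positivity), ← ENNReal.ofReal_mul (by positivity),
          ← ENNReal.ofReal_mul (by positivity)]
        refine ENNReal.ofReal_le_ofReal ?_
        have hKe : 0 < K ^ ε := by positivity
        nlinarith

end Pool.Agent.H84.G.RDS
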