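import Pool.Agent.H83.G.Targets3

/-! RDP: refined decoupling for wave packets at separated points (board g_modules,
MP_ee74d2_an, Theorem G). -/

set_option autoImplicit false

open MeasureTheory Set
open scoped ENNReal NNReal RealInnerProductSpace

namespace Pool.Agent.H84.G.RDP

open Pool.Agent.H83.G

private theorem pow_neg_le (a b c : ℝ≥0∞) (e : ℝ) (he : 0 ≤ e) (ha : a ≠ 0) (ha' : a ≠ ⊤)
    (hb : b ≠ 0) (hb' : b ≠ ⊤) (h : a ≤ c * b) : b ^ (-e) ≤ c ^ e * a ^ (-e) := by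
  have h1 : a ^ e ≤ c ^ e * b ^ e := by
    rw [← ENNReal.mul_rpow_of_nonneg _ _ he]
    exact ENNReal.rpow_le_rpow h he
  have ha1 : a ^ e * a ^ (-e) = 1 := by
    rw [← ENNReal.rpow_add _ _ ha ha', add_neg_cancel, ENNReal.rpow_zero]
  have hb1 : b ^ e * b ^ (-e) = 1 := by
    rw [← ENNReal.rpow_add _ _ hb hb', add_neg_cancel, ENNReal.rpow_zero]
  calc b ^ (-e) = b ^ (-e) * (a ^ e * a ^ (-e)) := by rw [ha1, mul_one]
    _ ≤ b ^ (-e) * ((c ^ e * b ^ e) * a ^ (-e)) :=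
        mul_le_mul' le_rfl (mul_le_mul' h1 le_rfl)
    _ = (b ^ e * b ^ (-e)) * (c ^ e * a ^ (-e)) := by ring
    _ = _ := by rw [hb1, one_mul]

private theorem rpow_le_sq (b : ℝ≥0∞) (e : ℝ) (hb : 1 ≤ b) (he : e ≤ 2) : b ^ e ≤ b ^ 2 := by
  rw [← ENNReal.rpow_two]
  exact ENNReal.rpow_le_rpow_of_exponent_le hb he

private theorem Rg_mono {m : ℕ} {κ κ' c : ℝ} (hκ : κ ≤ κ') (hκ1 : κ ≤ 1) (hc : 0 ≤ c) {ζ : Z m}
    (h : ζ ∈ Rg m κ c) : ζ ∈ Rg m κ' c := by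
  obtain ⟨h1, h2, h3, h4⟩ := h
  have h0 : 0 ≤ ζ.1 := by linarith
  refine ⟨by linarith, by linarith, h3.trans ?_, h4.trans ?_⟩
  · exact mul_le_mul_of_nonneg_right (by linarith) h0
  · exact mul_le_mul_of_nonneg_right (by linarith) hc

private theorem sR_sq (R : ℝ) (hR : 1 ≤ R) : sR R ^ 2 = R⁻¹ := by
  unfold sR
  rw [inv_pow, Real.sq_sqrt (by linarith)]

private theorem sR_pos (R : ℝ) (hR : 1 ≤ R) : 0 < sR R := by
  unfold sR
  exact inv_pos.mpr (Real.sqrt_pos.mpr (by linarith))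

private theorem sR_le (R : ℝ) (hR : 1 ≤ R) : sR R ≤ 1 := by
  unfold sR
  exact inv_le_one_of_one_le₀ (by rw [Real.one_le_sqrt]; exact hR)

/-- the weight varies slowly -/
private theorem wt_slow (hWT1 : T_WT1) {m : ℕ} (N : ℕ) (x y : Z m) :
    wt N x ≤ (1 + ‖x - y‖) ^ N * wt N y := by
  have h1 := (hWT1 m N).2.2.1 x (y - x)
  rw [add_sub_cancel] at h1
  have h2 : wt N (y - x) = ((1 + ‖x - y‖) ^ N)⁻¹ := by unfold wt; rw [norm_sub_rev]
  rw [h2] at h1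
  have h3 : (0 : ℝ) < (1 + ‖x - y‖) ^ N := by positivity
  rw [← div_eq_mul_inv, div_le_iff₀ h3] at h1
  linarith

private theorem fc_sub (hLOA : T_LOA) {m : ℕ} (R δ : ℝ) (k : Fin m → ℤ) (z z' : Z m) :
    fc R δ k z - fc R δ k z' = R ^ (-δ) • Lo (ctr (sR R) k) (sR R) (z - z') := by
  unfold fc
  rw [((hLOA m).1 _ _ z z').2.1, smul_sub]

private noncomputable def Mk {m : ℕ} (N : ℕ) (R δ : ℝ) (S : Finset (Pk m)) (k : Fin m → ℤ)
    (z : Z m) : ℝ :=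
  ∑ W ∈ S.filter (fun W => W.1 = k), wt N (fc R δ W.1 z - zc W.2)

private theorem wt_pos {m : ℕ} (N : ℕ) (x : Z m) : 0 < wt N x := by unfold wt; positivity

private theorem Mk_nonneg {m : ℕ} (N : ℕ) (R δ : ℝ) (S : Finset (Pk m)) (k : Fin m → ℤ)
    (z : Z m) : 0 ≤ Mk N R δ S k z :=
  Finset.sum_nonneg fun _ _ => (wt_pos N _).le

private theorem Mk_pos {m : ℕ} (N : ℕ) (R δ : ℝ) (S : Finset (Pk m)) (k : Fin m → ℤ)
    (hk : k ∈ S.image Prod.fst) (z : Z m) : 0 < Mk N R δ S k z := by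
  obtain ⟨W, hW, rfl⟩ := Finset.mem_image.mp hk
  refine Finset.sum_pos (fun _ _ => wt_pos N _) ⟨W, ?_⟩
  simp [hW]

private theorem Mk_cont (hWT1 : T_WT1) (hLOI : T_LOI) {m : ℕ} (N : ℕ) (R δ : ℝ) (hR : 1 ≤ R)
    (S : Finset (Pk m)) (k : Fin m → ℤ) : Continuous (Mk N R δ S k) := by
  unfold Mk
  refine continuous_finsetSum _ fun W _ => ?_
  have h1 : Continuous (wt N : Z m → ℝ) := (hWT1 m N).2.1
  have h2 : Continuous (Lo (ctr (sR R) W.1) (sR R) : Z m → Z m) :=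
    (hLOI m _ _ (sR_pos R hR)).2.2.2.2.1.continuous
  have h3 : Continuous (fun z : Z m => fc R δ W.1 z - zc W.2) := by
    unfold fc
    fun_prop
  exact h1.comp h3

private theorem Mk_slow (hWT1 : T_WT1) (hLOA : T_LOA) {m : ℕ} (N : ℕ) (R δ : ℝ)
    (S : Finset (Pk m)) (k : Fin m → ℤ) (z z' : Z m) :
    Mk N R δ S k z ≤ (1 + ‖R ^ (-δ) • Lo (ctr (sR R) k) (sR R) (z - z')‖) ^ N *
      Mk N R δ S k z' := by
  unfold Mk
  rw [Finset.mul_sum]
  refine Finset.sum_le_sum fun W hW => ?_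
  have h1 := wt_slow hWT1 N (fc R δ W.1 z - zc W.2) (fc R δ W.1 z' - zc W.2)
  rw [sub_sub_sub_cancel_right, fc_sub hLOA, (Finset.mem_filter.mp hW).2] at h1
  rw [(Finset.mem_filter.mp hW).2]
  exact h1

private theorem Mk_le (hWT3 : T_WT3) (m N : ℕ) (hN : m + 3 ≤ N) : ∃ C : ℝ≥0,
    ∀ (R δ : ℝ) (S : Finset (Pk m)) (k : Fin m → ℤ) (z : Z m),
      ENNReal.ofReal (Mk N R δ S k z) ≤ C := by
  obtain ⟨C, hC, -⟩ := hWT3 m N hN
  refine ⟨C, fun R δ S k z => ?_⟩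
  unfold Mk
  rw [ENNReal.ofReal_sum_of_nonneg fun _ _ => (wt_pos N _).le]
  have h1 : ∑ W ∈ S.filter (fun W => W.1 = k), ENNReal.ofReal (wt N (fc R δ W.1 z - zc W.2))
      = ∑ l ∈ (S.filter (fun W => W.1 = k)).image Prod.snd,
        ENNReal.ofReal (wt N (fc R δ k z - zc l)) := by
    rw [Finset.sum_image]
    · refine Finset.sum_congr rfl fun W hW => ?_
      rw [(Finset.mem_filter.mp hW).2]
    · intro W hW W' hW' h
      have e1 := (Finset.mem_filter.mp hW).2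
      have e2 := (Finset.mem_filter.mp hW').2
      exact Prod.ext (e1.trans e2.symm) h
  rw [h1]
  refine (ENNReal.sum_le_tsum _).trans ?_
  have h2 := hC 1 (fc R δ k z) one_pos le_rfl
  simp only [one_smul, inv_one, one_pow, ENNReal.ofReal_one, mul_one] at h2
  refine le_trans (le_of_eq ?_) h2
  refine tsum_congr fun l => ?_
  unfold wt
  rw [norm_sub_rev]

private theorem int_wt (hWT2 : T_WT2) (hLOI : T_LOI) (m N : ℕ) (hN : m + 3 ≤ N) : ∃ C : ℝ≥0,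
    ∀ (R δ : ℝ) (W : Pk m), 1 ≤ R →
      ∫⁻ z, ENNReal.ofReal (wt N (fc R δ W.1 z - zc W.2)) ≤
        C * ENNReal.ofReal (R ^ (δ * ((m : ℝ) + 2)) * R ^ (((m : ℝ) + 2) / 2)) := by
  obtain ⟨C, hC, -⟩ := hWT2 m N hN
  refine ⟨C, fun R δ W hR => ?_⟩
  have hR0 : 0 < R := by linarith
  have h1 := (hLOI m (ctr (sR R) W.1) (sR R) (sR_pos R hR)).1
    (fun y => ENNReal.ofReal (wt N (R ^ (-δ) • y - zc W.2)))
  unfold fc
  rw [h1]
  have h2 := hC (R ^ (-δ)) (zc W.2) (Real.rpow_pos_of_pos hR0 _)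
  refine (mul_le_mul' le_rfl h2).trans (le_of_eq ?_)
  have e1 : ((R ^ (-δ))⁻¹) ^ (m + 2) = R ^ (δ * ((m : ℝ) + 2)) := by
    rw [← Real.rpow_neg hR0.le, neg_neg, ← Real.rpow_natCast, ← Real.rpow_mul hR0.le]
    push_cast
    rfl
  have e2 : ((sR R)⁻¹) ^ (m + 2) = R ^ (((m : ℝ) + 2) / 2) := by
    unfold sR
    rw [inv_inv, Real.sqrt_eq_rpow, ← Real.rpow_natCast, ← Real.rpow_mul hR0.le]
    congr 1
    push_cast
    ring
  rw [e1, e2, mul_comm (R ^ (δ * ((m : ℝ) + 2))), ENNReal.ofReal_mul (by positivity)]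
  ring

private theorem sum_Mk {m : ℕ} (N : ℕ) (R δ : ℝ) (S : Finset (Pk m)) (z : Z m) :
    ∑ k ∈ S.image Prod.fst, Mk N R δ S k z = MS N R δ S z := by
  unfold Mk MS
  exact Finset.sum_fiberwise_of_maps_to (fun W hW => Finset.mem_image_of_mem _ hW) _

private theorem F_TC {m : ℕ} (I : Finset (Fin m → ℤ)) (G' : (Fin m → ℤ) → Z m → ℂ)
    (h : ∀ k, TC (G' k)) : TC (fun ζ => ∑ k ∈ I, G' k ζ) := by
  refine ⟨ContDiff.sum fun k _ => (h k).1, ?_⟩
  classical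
  induction I using Finset.induction_on with
  | empty =>
    simp only [Finset.sum_empty]
    exact HasCompactSupport.zero
  | insert a s has ih =>
    simp_rw [Finset.sum_insert has]
    exact (h a).2.add ih

private theorem Rg_norm {m : ℕ} (R : ℝ) (hR : 1 ≤ R) (ζ : Z m) (h : ζ ∈ Rg m (1 / 2) R⁻¹) :
    ‖ζ‖ ≤ 12 := by
  obtain ⟨q1, q2, q3, q4⟩ := h
  have hζ0 : 0 < ζ.1 := by linarith
  have hRi : R⁻¹ ≤ 1 := inv_le_one_of_one_le₀ hR
  have h1 : ‖ζ.2.1‖ ≤ 27 / 4 := by nlinarith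
  have h2 : ‖ζ.2.1‖ ^ 2 / ζ.1 ≤ 81 / 8 := by
    rw [div_le_iff₀ hζ0]
    have h3 : ‖ζ.2.1‖ ^ 2 ≤ ((1 + 1 / 2) * ζ.1) ^ 2 := pow_le_pow_left₀ (norm_nonneg _) q3 2
    nlinarith
  have h3 : 0 ≤ ‖ζ.2.1‖ ^ 2 / ζ.1 := by positivity
  have h4 := abs_le.mp q4
  rw [Prod.norm_def, Prod.norm_def, max_le_iff, max_le_iff]
  refine ⟨?_, by linarith, ?_⟩
  · rw [Real.norm_eq_abs, abs_of_pos hζ0]; linarith
  · rw [Real.norm_eq_abs, abs_le]; constructor <;> linarith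

private theorem F_TF {m : ℕ} (I : Finset (Fin m → ℤ)) (G' : (Fin m → ℤ) → Z m → ℂ)
    (h : ∀ k, TC (G' k)) (z : Z m) :
    TF (fun ζ => ∑ k ∈ I, G' k ζ) z = ∑ k ∈ I, TF (G' k) z := by
  unfold TF
  rw [← integral_finsetSum]
  · refine integral_congr_ae (Filter.Eventually.of_forall fun ζ => ?_)
    simp only [Finset.mul_sum]
  · intro k _
    have h1 : Continuous (fun ζ : Z m => e (ph z ζ) * G' k ζ) := by
      have h2 : Continuous (fun ζ : Z m => e (ph z ζ)) := by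
        unfold e ph
        fun_prop
      exact h2.mul (h k).1.continuous
    exact h1.integrable_of_hasCompactSupport
      (HasCompactSupport.mul_left (f := fun ζ : Z m => e (ph z ζ)) (h k).2)

private theorem expo (m : ℕ) (R δ P j : ℝ) (hR : 1 ≤ R) (hδ : 0 < δ) (hP : 0 ≤ P) (hP6 : P ≤ 6)
    (hj : 0 ≤ 1 / j) (hjδ : 1 / j ≤ δ) :
    R ^ ((P + 1) / j) * (R ^ (δ * ((m : ℝ) + 2) / 2)) ^ P * R ^ (δ * ((m : ℝ) + 2))
      ≤ R ^ (lo m * δ) := by
  have hR0 : 0 < R := by linarith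
  rw [← Real.rpow_mul hR0.le, ← Real.rpow_add hR0, ← Real.rpow_add hR0]
  refine Real.rpow_le_rpow_of_exponent_le hR ?_
  have h1 : (P + 1) / j ≤ 7 * δ := by
    calc (P + 1) / j = (P + 1) * (1 / j) := by ring
      _ ≤ 7 * δ := mul_le_mul (by linarith) hjδ hj (by norm_num)
  have h2 : δ * ((m : ℝ) + 2) / 2 * P ≤ δ * ((m : ℝ) + 2) / 2 * 6 :=
    mul_le_mul_of_nonneg_left hP6 (by positivity)
  have h3 : 0 ≤ δ * m := by positivity
  have e2 : δ * ((m : ℝ) + 2) / 2 * 6 = 3 * (δ * m) + 6 * δ := by ring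
  have e3 : δ * ((m : ℝ) + 2) = δ * m + 2 * δ := by ring
  have e4 : lo m * δ = 100 * (δ * m) + 200 * δ := by unfold lo; ring
  rw [e2] at h2
  rw [e4, e3]
  rw [e3] at h2
  linarith

theorem pf_RDP (hRDA : T_RDA) (hPKT : T_PKT) (hPTW : T_PTW) (hSPW : T_SPW) (hLOA : T_LOA)
    (hLOI : T_LOI) (hWT1 : T_WT1) (hWT2 : T_WT2) (hWT3 : T_WT3) (hLOB : T_LOB) (hPUS : T_PUS)
    (hLWX : T_LWX) : T_RDP := by
  intro m N β Ψ ψ δ P hm hβ hΨ hδ hδ4 hN hP hmP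
  obtain ⟨Ξ, χ, hΞ⟩ := hLWX m
  obtain ⟨C1, hC1, hPK⟩ := hPKT m β Ψ Ξ ψ χ hβ hΨ hΞ
  obtain ⟨C2, hC2, hPT⟩ := hPTW m N N β Ψ ψ δ hβ hΨ hδ.le
  set J : ℕ := ⌈1 / δ⌉₊ with hJ
  have hJ1 : 1 / δ ≤ J := Nat.le_ceil _
  have hJpos : (0 : ℝ) < J := lt_of_lt_of_le (by positivity) hJ1
  have hJ1' : 1 ≤ J := by exact_mod_cast hJpos
  have hJδ : 1 / (J : ℝ) ≤ δ := by
    rw [div_le_iff₀ hJpos]
    rw [div_le_iff₀ hδ] at hJ1
    linarith
  obtain ⟨C3, hC3, hRD⟩ := hRDA m N J P 2 1 hm hP hmP (by norm_num) zero_le_one hJ1'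
  obtain ⟨-, -, Cη, hCη0, -, -, hCη⟩ := hPUS m
  have hLB := (hLOB m Cη hCη0.le).1
  set B : ℝ := 1 + (1 + Cη) ^ 2 with hB
  have hB1 : 1 ≤ B := by rw [hB]; linarith [sq_nonneg (1 + Cη)]
  have hB0 : 0 < B := by linarith
  obtain ⟨C4, hSP⟩ := hSPW m (2 * N) 12 P (B ^ (2 * N)) (by linarith) (by positivity)
  obtain ⟨C5, hMk⟩ := Mk_le hWT3 m N hN
  obtain ⟨C6, hint⟩ := int_wt hWT2 hLOI m N hN
  have hP0 : 0 < P := by linarith
  have hm1 : (1 : ℝ) ≤ m := by exact_mod_cast hm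
  have hP6 : P < 6 := by nlinarith
  have he0 : 0 ≤ P / 2 - 1 := by linarith
  have he2 : P / 2 - 1 ≤ 2 := by linarith
  have hexp : 1 - P / 2 = -(P / 2 - 1) := by ring
  set Cf : ℝ := C4 * C3 * C2 ^ P * (C5 : ℝ) ^ (P / 2) * C6 with hCf
  have hCf0 : 0 ≤ Cf := by positivity
  refine ⟨max (8 * C1) Cf, le_max_of_le_left (by linarith), ?_⟩
  intro κ R a H M₁ G S X hκ hκ' hR hCR hTC hsupp ha hH hM₁ hSep hS hX
  have hR0 : 0 < R := by linarith
  have hRinv : (0 : ℝ) ≤ R⁻¹ := by positivity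
  have hC1R : 8 * C1 ≤ R ^ δ := (le_max_left _ _).trans hCR
  have hsRp := sR_pos R hR
  have hsR1 := sR_le R hR
  have hsRsq := sR_sq R hR
  have hRHS : 0 ≤ R ^ (lo m * δ) * M₁ ^ (P / 2 - 1) * a ^ P * S.card * R ^ (((m : ℝ) + 2) / 2) := by
    have h1 : 0 ≤ a ^ P := Real.rpow_nonneg ha _
    positivity
  rcases X.eq_empty_or_nonempty with rfl | hXne
  · simp only [Finset.card_empty, Nat.cast_zero, zero_mul]
    calc (0 : ℝ) ≤ max (8 * C1) Cf * (R ^ (lo m * δ) * M₁ ^ (P / 2 - 1) * a ^ P * S.card *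
          R ^ (((m : ℝ) + 2) / 2)) := mul_nonneg (le_max_of_le_right hCf0) hRHS
      _ = _ := by ring
  have hSne : S.Nonempty := by
    obtain ⟨z, hz⟩ := hXne
    by_contra h
    rw [Finset.not_nonempty_iff_eq_empty] at h
    have := (hX z hz).1
    rw [h, Finset.sum_empty, norm_zero] at this
    linarith
  set I : Finset (Fin m → ℤ) := S.image Prod.fst with hI
  have hIK : I ⊆ Ks m (sR R) := by
    intro k hk
    obtain ⟨W, hW, rfl⟩ := Finset.mem_image.mp hk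
    exact (hS W hW).1
  obtain ⟨⟨G', hG'TC, hG'supp, hG'TF, -⟩, -⟩ := hPK κ R R δ G S 0 hκ hκ' hδ hδ4 hR
    (by linarith) hTC hsupp
  have hκ2 : κ + C1 * R ^ (-δ) ≤ 1 / 2 := by
    have h1 : C1 * R ^ (-δ) ≤ 1 / 8 := by
      rw [Real.rpow_neg hR0.le, ← div_eq_mul_inv, div_le_iff₀ (Real.rpow_pos_of_pos hR0 _)]
      linarith
    linarith
  have hG'2 : ∀ k ζ, G' k ζ ≠ 0 → ζ ∈ Rg m (1 / 2) R⁻¹ := fun k ζ hζ =>
    Rg_mono hκ2 (by linarith) hRinv (hG'supp k ζ hζ).1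
  have hG2 : ∀ ζ, G ζ ≠ 0 → ζ ∈ Rg m (1 / 2) R⁻¹ := fun ζ hζ =>
    Rg_mono (by linarith) (by linarith) hRinv (hsupp ζ hζ)
  -- pointwise bound of the pieces
  set lam : ℝ := C2 * R ^ (δ * ((m : ℝ) + 2) / 2) * a with hlam
  have hlam0 : 0 ≤ lam := by positivity
  have hpw : ∀ k z, ‖TF (G' k) z‖ₑ ≤ ENNReal.ofReal lam * ENNReal.ofReal (Mk N R δ S k z) := by
    intro k z
    rw [← ENNReal.ofReal_mul hlam0, ← ofReal_norm]
    refine ENNReal.ofReal_le_ofReal ?_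
    rw [hG'TF]
    unfold Mk
    rw [Finset.mul_sum]
    refine (norm_sum_le _ _).trans (Finset.sum_le_sum fun W hW => ?_)
    refine (hPT R G W z hR hTC hG2).trans ?_
    refine mul_le_mul_of_nonneg_right ?_ (wt_pos N _).le
    exact mul_le_mul_of_nonneg_left (hS W (Finset.mem_filter.mp hW).1).2 (by positivity)
  have hMk0 : ∀ k ∈ I, ∀ z, ENNReal.ofReal (Mk N R δ S k z) ≠ 0 ∧
      ENNReal.ofReal (Mk N R δ S k z) ≠ ⊤ := by
    intro k hk z
    refine ⟨?_, ENNReal.ofReal_ne_top⟩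
    rw [Ne, ENNReal.ofReal_eq_zero, not_le]
    exact Mk_pos N R δ S k hk z
  have hMkm : ∀ k, Measurable (fun z => ENNReal.ofReal (Mk N R δ S k z)) := fun k =>
    ENNReal.measurable_ofReal.comp (Mk_cont hWT1 hLOI N R δ hR S k).measurable
  -- refined decoupling
  have hRDA' := hRD R I G' (fun k z => ENNReal.ofReal (Mk N R δ S k z)) hR hIK
    (fun k _ => hG'TC k) ?_ ?_
  rotate_left
  · intro k hk ζ hζ
    obtain ⟨q1, q2, q3, q4⟩ := hG'2 k ζ hζ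
    refine ⟨by linarith, by linarith, (hG'supp k ζ hζ).2, ?_⟩
    rw [hsRsq]
    refine q4.trans (mul_le_mul_of_nonneg_right (by norm_num) hRinv)
  · intro k hk
    refine ⟨hMkm k, ?_, hMk0 k hk⟩
    intro z z'
    rw [one_mul, ← ENNReal.ofReal_mul (by positivity)]
    refine ENNReal.ofReal_le_ofReal ((Mk_slow hWT1 hLOA N R δ S k z z').trans ?_)
    refine mul_le_mul_of_nonneg_right (pow_le_pow_left₀ (by positivity) ?_ _)
      (Mk_nonneg N R δ S k z')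
    rw [norm_smul, norm_smul, Real.norm_eq_abs, Real.norm_eq_abs,
      abs_of_pos (Real.rpow_pos_of_pos hR0 _), abs_of_pos (by positivity)]
    have h1 : R ^ (-δ) ≤ (R ^ (1 / (J : ℝ)))⁻¹ := by
      rw [Real.rpow_neg hR0.le]
      exact inv_anti₀ (by positivity) (Real.rpow_le_rpow_of_exponent_le hR hJδ)
    have := mul_le_mul_of_nonneg_right h1 (norm_nonneg (Lo (ctr (sR R) k) (sR R) (z - z')))
    linarith
  -- the weight
  have hMS : ∀ z, ∑ k ∈ I, ENNReal.ofReal (Mk N R δ S k z) = ENNReal.ofReal (MS N R δ S z) := by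
    intro z
    rw [← ENNReal.ofReal_sum_of_nonneg fun k _ => Mk_nonneg N R δ S k z, sum_Mk]
  have hMSp : ∀ z, 0 < MS N R δ S z := fun z => by
    unfold MS
    exact Finset.sum_pos (fun _ _ => wt_pos N _) hSne
  have hMS0 : ∀ z, ENNReal.ofReal (MS N R δ S z) ≠ 0 := fun z => by
    rw [Ne, ENNReal.ofReal_eq_zero, not_le]; exact hMSp z
  simp only [hMS] at hRDA'
  set ω : Z m → ℝ≥0∞ := fun z => ENNReal.ofReal (MS N R δ S z) ^ (1 - P / 2) with hω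
  have hωm : Measurable ω := by
    have h1 : (fun z => ENNReal.ofReal (MS N R δ S z)) =
        fun z => ∑ k ∈ I, ENNReal.ofReal (Mk N R δ S k z) := by
      funext z; rw [hMS]
    rw [hω]
    have h2 : Measurable (fun z => ENNReal.ofReal (MS N R δ S z)) := by
      rw [h1]; exact Finset.measurable_sum _ fun k _ => hMkm k
    exact h2.pow_const _
  have hωs : ∀ z z', ω z ≤ ENNReal.ofReal (B ^ (2 * N) * (1 + ‖z - z'‖) ^ (2 * N)) * ω z' := by
    intro z z'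
    simp only [hω]
    rw [hexp]
    have h1 : MS N R δ S z' ≤ (B * (1 + ‖z - z'‖)) ^ N * MS N R δ S z := by
      rw [← sum_Mk, ← sum_Mk, Finset.mul_sum]
      refine Finset.sum_le_sum fun k hk => (Mk_slow hWT1 hLOA N R δ S k z' z).trans ?_
      refine mul_le_mul_of_nonneg_right (pow_le_pow_left₀ (by positivity) ?_ _)
        (Mk_nonneg N R δ S k z)
      have h2 := (hLB (ctr (sR R) k) (sR R) (z' - z) (hCη _ _ hsRp hsR1 (hIK hk)) hsRp.le hsR1).1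
      have h3 : R ^ (-δ) ≤ 1 := Real.rpow_le_one_of_one_le_of_nonpos hR (by linarith)
      rw [norm_smul, Real.norm_eq_abs, abs_of_pos (Real.rpow_pos_of_pos hR0 _)]
      rw [norm_sub_rev z' z] at h2
      have h4 : R ^ (-δ) * ‖Lo (ctr (sR R) k) (sR R) (z' - z)‖ ≤ 1 * ((1 + Cη) ^ 2 * ‖z - z'‖) :=
        mul_le_mul h3 h2 (norm_nonneg _) zero_le_one
      have h5 := norm_nonneg (z - z')
      have h6 := sq_nonneg (1 + Cη)
      rw [hB]
      nlinarith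
    have h2 : ENNReal.ofReal (MS N R δ S z') ≤
        ENNReal.ofReal ((B * (1 + ‖z - z'‖)) ^ N) * ENNReal.ofReal (MS N R δ S z) := by
      rw [← ENNReal.ofReal_mul (by positivity)]
      exact ENNReal.ofReal_le_ofReal h1
    refine (pow_neg_le _ _ _ _ he0 (hMS0 _) ENNReal.ofReal_ne_top (hMS0 _) ENNReal.ofReal_ne_top
      h2).trans (mul_le_mul' ?_ le_rfl)
    have h3 : B ^ (2 * N) * (1 + ‖z - z'‖) ^ (2 * N) = ((B * (1 + ‖z - z'‖)) ^ N) ^ 2 := by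
      rw [← pow_mul, mul_comm N 2, mul_pow]
    rw [h3, ENNReal.ofReal_pow (p := (B * (1 + ‖z - z'‖)) ^ N) (by positivity) 2]
    refine rpow_le_sq _ _ ?_ he2
    rw [← ENNReal.ofReal_one]
    refine ENNReal.ofReal_le_ofReal (one_le_pow₀ ?_)
    refine one_le_mul_of_one_le_of_one_le hB1 ?_
    have := norm_nonneg (z - z')
    linarith
  -- the total function
  set F : Z m → ℂ := fun ζ => ∑ k ∈ I, G' k ζ with hF
  have hFTC : TC F := F_TC I G' hG'TC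
  have hFsupp : ∀ ζ, F ζ ≠ 0 → ‖ζ‖ ≤ 12 := by
    intro ζ hζ
    obtain ⟨k, hk, hk'⟩ := Finset.exists_ne_zero_of_sum_ne_zero hζ
    exact Rg_norm R hR ζ (hG'2 k ζ hk')
  have hFTF : ∀ z, TF F z = ∑ k ∈ I, TF (G' k) z := F_TF I G' hG'TC
  have hFFp : ∀ z, TF F z = ∑ W ∈ S, Fp β ψ R δ G W z := by
    intro z
    rw [hFTF, Finset.sum_congr rfl fun k _ => hG'TF k z]
    exact Finset.sum_fiberwise_of_maps_to (fun W hW => Finset.mem_image_of_mem _ hW) _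
  have hSPW := hSP F X ω hFTC hFsupp hSep hωm hωs
  -- lower bound
  have hlow : ENNReal.ofReal ((X.card : ℝ) * H ^ P * M₁ ^ (1 - P / 2)) ≤
      ∑ z ∈ X, ‖TF F z‖ₑ ^ P * ω z := by
    have h1 : ∀ z ∈ X, ENNReal.ofReal (H ^ P * M₁ ^ (1 - P / 2)) ≤ ‖TF F z‖ₑ ^ P * ω z := by
      intro z hz
      rw [ENNReal.ofReal_mul (by positivity)]
      refine mul_le_mul' ?_ ?_
      · rw [← ENNReal.ofReal_rpow_of_pos hH, ← ofReal_norm, hFFp]
        exact ENNReal.rpow_le_rpow (ENNReal.ofReal_le_ofReal (hX z hz).1) hP0.le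
      · simp only [hω]
        rw [← ENNReal.ofReal_rpow_of_pos hM₁, hexp, ENNReal.rpow_neg, ENNReal.rpow_neg]
        refine ENNReal.inv_le_inv.mpr ?_
        exact ENNReal.rpow_le_rpow (ENNReal.ofReal_le_ofReal (hX z hz).2) he0
    calc ENNReal.ofReal ((X.card : ℝ) * H ^ P * M₁ ^ (1 - P / 2))
        = ∑ z ∈ X, ENNReal.ofReal (H ^ P * M₁ ^ (1 - P / 2)) := by
          rw [Finset.sum_const, nsmul_eq_mul, mul_assoc, ENNReal.ofReal_mul (by positivity),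
            ENNReal.ofReal_natCast]
      _ ≤ _ := Finset.sum_le_sum h1
  -- upper bound
  have hup : ∑ k ∈ I, ∫⁻ z, ‖TF (G' k) z‖ₑ ^ P * ENNReal.ofReal (Mk N R δ S k z) ^ (1 - P / 2) ≤
      ENNReal.ofReal lam ^ P * (C5 : ℝ≥0∞) ^ (P / 2) * (S.card * (C6 *
        ENNReal.ofReal (R ^ (δ * ((m : ℝ) + 2)) * R ^ (((m : ℝ) + 2) / 2)))) := by
    have h1 : ∀ k ∈ I, ∫⁻ z, ‖TF (G' k) z‖ₑ ^ P * ENNReal.ofReal (Mk N R δ S k z) ^ (1 - P / 2) ≤
        ENNReal.ofReal lam ^ P * (C5 : ℝ≥0∞) ^ (P / 2) * ∫⁻ z, ENNReal.ofReal (Mk N R δ S k z) := by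
      intro k hk
      rw [← lintegral_const_mul _ (hMkm k)]
      refine lintegral_mono fun z => ?_
      have h2 : ‖TF (G' k) z‖ₑ ^ P ≤ ENNReal.ofReal lam ^ P *
          ENNReal.ofReal (Mk N R δ S k z) ^ P := by
        rw [← ENNReal.mul_rpow_of_nonneg _ _ hP0.le]
        exact ENNReal.rpow_le_rpow (hpw k z) hP0.le
      refine (mul_le_mul' h2 le_rfl).trans ?_
      rw [mul_assoc, mul_assoc]
      refine mul_le_mul' le_rfl ?_
      rw [← ENNReal.rpow_add _ _ (hMk0 k hk z).1 (hMk0 k hk z).2,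
        show P + (1 - P / 2) = P / 2 + 1 by ring,
        ENNReal.rpow_add _ _ (hMk0 k hk z).1 (hMk0 k hk z).2, ENNReal.rpow_one]
      exact mul_le_mul' (ENNReal.rpow_le_rpow (hMk R δ S k z) (by positivity)) le_rfl
    refine (Finset.sum_le_sum h1).trans ?_
    rw [← Finset.mul_sum]
    refine mul_le_mul' le_rfl ?_
    have hwm : ∀ W : Pk m, Measurable (fun z : Z m =>
        ENNReal.ofReal (wt N (fc R δ W.1 z - zc W.2))) := by
      intro W
      have h3 : Continuous (wt N : Z m → ℝ) := (hWT1 m N).2.1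
      have h4 : Continuous (Lo (ctr (sR R) W.1) (sR R) : Z m → Z m) :=
        (hLOI m _ _ hsRp).2.2.2.2.1.continuous
      have h5 : Continuous (fun z : Z m => fc R δ W.1 z - zc W.2) := by
        unfold fc
        fun_prop
      exact ENNReal.measurable_ofReal.comp (h3.comp h5).measurable
    have h2 : ∀ k ∈ I, ∫⁻ z, ENNReal.ofReal (Mk N R δ S k z) =
        ∑ W ∈ S.filter (fun W => W.1 = k),
          ∫⁻ z, ENNReal.ofReal (wt N (fc R δ W.1 z - zc W.2)) := by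
      intro k _
      rw [← lintegral_finsetSum _ fun W _ => hwm W]
      refine lintegral_congr fun z => ?_
      unfold Mk
      exact ENNReal.ofReal_sum_of_nonneg fun _ _ => (wt_pos N _).le
    rw [Finset.sum_congr rfl h2, Finset.sum_fiberwise_of_maps_to
      (fun W hW => Finset.mem_image_of_mem _ hW)]
    calc ∑ W ∈ S, ∫⁻ z, ENNReal.ofReal (wt N (fc R δ W.1 z - zc W.2))
        ≤ ∑ W ∈ S, (C6 * ENNReal.ofReal (R ^ (δ * ((m : ℝ) + 2)) * R ^ (((m : ℝ) + 2) / 2))) :=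
          Finset.sum_le_sum fun W _ => hint R δ W hR
      _ = _ := by rw [Finset.sum_const, nsmul_eq_mul]
  -- real form
  have hreal : (X.card : ℝ) * H ^ P * M₁ ^ (1 - P / 2) ≤
      Cf * (R ^ ((P + 1) / (J : ℝ)) * (R ^ (δ * ((m : ℝ) + 2) / 2)) ^ P *
        R ^ (δ * ((m : ℝ) + 2))) * a ^ P * S.card * R ^ (((m : ℝ) + 2) / 2) := by
    have hap : 0 ≤ a ^ P := Real.rpow_nonneg ha _
    rw [← ENNReal.ofReal_le_ofReal_iff (by positivity)]
    refine hlow.trans (hSPW.trans ?_)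
    have h1 : ∫⁻ z, ‖TF F z‖ₑ ^ P * ω z ≤ ENNReal.ofReal (C3 * R ^ ((P + 1) / (J : ℝ))) *
        (ENNReal.ofReal lam ^ P * (C5 : ℝ≥0∞) ^ (P / 2) * (S.card * (C6 *
        ENNReal.ofReal (R ^ (δ * ((m : ℝ) + 2)) * R ^ (((m : ℝ) + 2) / 2))))) := by
      simp only [hFTF]
      exact hRDA'.trans (mul_le_mul' le_rfl hup)
    refine (mul_le_mul' le_rfl h1).trans (le_of_eq ?_)
    have e4 : (C4 : ℝ≥0∞) = ENNReal.ofReal (C4 : ℝ) := by simp
    have e5 : (C5 : ℝ≥0∞) ^ (P / 2) = ENNReal.ofReal ((C5 : ℝ) ^ (P / 2)) := by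
      rw [← ENNReal.ofReal_rpow_of_nonneg (NNReal.coe_nonneg C5) (by positivity)]; simp
    have e6 : (C6 : ℝ≥0∞) = ENNReal.ofReal (C6 : ℝ) := by simp
    have e7 : ENNReal.ofReal lam ^ P = ENNReal.ofReal (lam ^ P) :=
      ENNReal.ofReal_rpow_of_nonneg hlam0 hP0.le
    have e8 : (S.card : ℝ≥0∞) = ENNReal.ofReal (S.card : ℝ) := (ENNReal.ofReal_natCast _).symm
    have hlP : 0 ≤ lam ^ P := Real.rpow_nonneg hlam0 _
    rw [e4, e5, e6, e7, e8, ← ENNReal.ofReal_mul (by positivity),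
      ← ENNReal.ofReal_mul (by positivity), ← ENNReal.ofReal_mul (by positivity),
      ← ENNReal.ofReal_mul (by positivity), ← ENNReal.ofReal_mul (by positivity),
      ← ENNReal.ofReal_mul (by positivity)]
    congr 1
    have e9 : lam ^ P = C2 ^ P * (R ^ (δ * ((m : ℝ) + 2) / 2)) ^ P * a ^ P := by
      rw [hlam, Real.mul_rpow (by positivity) ha, Real.mul_rpow hC2.le (by positivity)]
    rw [e9, hCf]
    ring
  have hexpo : R ^ ((P + 1) / (J : ℝ)) * (R ^ (δ * ((m : ℝ) + 2) / 2)) ^ P *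
        R ^ (δ * ((m : ℝ) + 2)) ≤ R ^ (lo m * δ) :=
    expo m R δ P J hR hδ hP0.le hP6.le (by positivity) hJδ
  have hMpow : M₁ ^ (1 - P / 2) * M₁ ^ (P / 2 - 1) = 1 := by
    rw [← Real.rpow_add hM₁, show 1 - P / 2 + (P / 2 - 1) = 0 by ring, Real.rpow_zero]
  have hap : 0 ≤ a ^ P := Real.rpow_nonneg ha _
  calc (X.card : ℝ) * H ^ P
      = ((X.card : ℝ) * H ^ P * M₁ ^ (1 - P / 2)) * M₁ ^ (P / 2 - 1) := by
        rw [mul_assoc, hMpow, mul_one]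
    _ ≤ (Cf * (R ^ ((P + 1) / (J : ℝ)) * (R ^ (δ * ((m : ℝ) + 2) / 2)) ^ P *
        R ^ (δ * ((m : ℝ) + 2))) * a ^ P * S.card * R ^ (((m : ℝ) + 2) / 2)) *
        M₁ ^ (P / 2 - 1) := mul_le_mul_of_nonneg_right hreal (by positivity)
    _ ≤ (max (8 * C1) Cf * R ^ (lo m * δ) * a ^ P * S.card * R ^ (((m : ℝ) + 2) / 2)) *
        M₁ ^ (P / 2 - 1) := by
        refine mul_le_mul_of_nonneg_right ?_ (by positivity)
        refine mul_le_mul_of_nonneg_right ?_ (by positivity)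
        refine mul_le_mul_of_nonneg_right ?_ (by positivity)
        refine mul_le_mul_of_nonneg_right ?_ hap
        exact mul_le_mul (le_max_right _ _) hexpo (by positivity) (le_max_of_le_right hCf0)
    _ = _ := by ring

end Pool.Agent.H84.G.RDP
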